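import Pool.Agent.Superell.Jump

/-!
# Families of signs whose sums are bounded by one
-/

set_option autoImplicit false

open MeasureTheory intervalIntegral Finset Filter Topology

namespace Pool.Agent.Superell

variable {ι : Type*}

theorem int_e_mul {β : ℤ} (hβ : β ≠ 0) : ∫ x in (0 : ℝ)..1, e (β * x) = 0 := by
  have h1 := scale periodic_e (fun a b => continuous_e.intervalIntegrable a b) hβ
  rw [h1, int_e]
  have h3 : e 1 = 1 := by
    have := e_int 1
    simpa using this
  rw [h3, e_zero, sub_self, zero_div]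

theorem ae_signs {p s : ℕ} {b c : ι → ℤ} {I : Finset ι} (hb : ∀ i ∈ I, b i ≠ 0)
    (hy : ∀ i ∈ I, NI (s * c i / p)) :
    ∀ᵐ x : ℝ, ∀ i ∈ I, f (b i * x) (s * c i / p) = 1 ∨ f (b i * x) (s * c i / p) = -1 :=
  (Filter.eventually_all_finset I).mpr fun i hi => ae_sign (hb i hi) (hy i hi)

theorem ae_F_even {p s : ℕ} {b c : ι → ℤ} {I : Finset ι} (hb : ∀ i ∈ I, b i ≠ 0)
    (hy : ∀ i ∈ I, NI (s * c i / p)) (hI : Even I.card) (hF : ∀ᵐ x, |F p b c I s x| ≤ 1) :
    ∀ᵐ x : ℝ, F p b c I s x = 0 := by
  filter_upwards [ae_signs hb hy, hF] with x hx hx1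
  obtain ⟨z, hz⟩ := parity I _ hx
  obtain ⟨n, hn⟩ := hI
  have h1 : F p b c I s x = ((2 * (n + z) : ℤ) : ℝ) := by
    unfold F
    rw [hz, hn]
    push_cast
    ring
  rw [h1] at hx1 ⊢
  have h2 : |2 * (n + z)| ≤ 1 := by exact_mod_cast hx1
  have h3 : 2 * (n + z) = 0 := by
    have := abs_le.mp h2
    omega
  rw [h3, Int.cast_zero]

theorem ae_F_odd {p s : ℕ} {b c : ι → ℤ} {I : Finset ι} (hb : ∀ i ∈ I, b i ≠ 0)
    (hy : ∀ i ∈ I, NI (s * c i / p)) (hI : Odd I.card) (hF : ∀ᵐ x, |F p b c I s x| ≤ 1) :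
    ∀ᵐ x : ℝ, F p b c I s x = 1 ∨ F p b c I s x = -1 := by
  filter_upwards [ae_signs hb hy, hF] with x hx hx1
  obtain ⟨z, hz⟩ := parity I _ hx
  obtain ⟨n, hn⟩ := hI
  have h1 : F p b c I s x = ((2 * (n + z) + 1 : ℤ) : ℝ) := by
    unfold F
    rw [hz, hn]
    push_cast
    ring
  rw [h1] at hx1 ⊢
  have h2 : |2 * (n + z) + 1| ≤ 1 := by exact_mod_cast hx1
  have h3 : 2 * (n + z) + 1 = 1 ∨ 2 * (n + z) + 1 = -1 := by
    have := abs_le.mp h2
    omega
  rcases h3 with h3 | h3
  · left; rw [h3, Int.cast_one]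
  · right; rw [h3]; push_cast; rfl

/-- the mean value of an odd family -/
theorem mean_odd {p s : ℕ} {b c : ι → ℤ} {I : Finset ι} (hb : ∀ i ∈ I, b i ≠ 0)
    (hy : ∀ i ∈ I, NI (s * c i / p)) (hI : Odd I.card) (hF : ∀ᵐ x, |F p b c I s x| ≤ 1) :
    ∃ μ : ℝ, ∫ x in (0 : ℝ)..1, ((F p b c I s x : ℝ) : ℂ) * 1 = (μ : ℂ) ∧ |μ| ≤ 1 ∧
      ∃ z : ℤ, μ = 1 - 2 * Int.fract (s * (∑ i ∈ I, c i : ℤ) / p : ℝ) + 2 * z := by
  refine ⟨_, mean_F hb hy, ?_, ?_⟩
  · have h1 := mean_F hb hy
    have h2 : ‖∫ x in (0 : ℝ)..1, ((F p b c I s x : ℝ) : ℂ) * 1‖ ≤ 1 * |(1 : ℝ) - 0| := by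
      refine intervalIntegral.norm_integral_le_of_norm_le_const_ae ?_
      refine hF.mono fun x hx _ => ?_
      rw [mul_one, Complex.norm_real]
      exact hx
    rw [h1, Complex.norm_real] at h2
    simpa using h2
  · obtain ⟨n, hn⟩ := hI
    have h1 : ∑ i ∈ I, (1 - 2 * Int.fract (s * c i / p : ℝ)) =
        I.card - 2 * (s * (∑ i ∈ I, c i : ℤ) / p) + 2 * (∑ i ∈ I, ⌊(s * c i / p : ℝ)⌋ : ℤ) := by
      have h2 : ∀ i ∈ I, (1 - 2 * Int.fract (s * c i / p : ℝ)) =
          1 - 2 * (s * c i / p) + 2 * (⌊(s * c i / p : ℝ)⌋ : ℤ) := by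
        intro i _
        have := Int.floor_add_fract (s * c i / p : ℝ)
        linarith
      have h3 : ∑ i ∈ I, 2 * (s * c i / p : ℝ) = 2 * ((s * (∑ x ∈ I, c x : ℤ)) / p) := by
        push_cast
        rw [← Finset.mul_sum, ← Finset.sum_div, ← Finset.mul_sum]
      rw [Finset.sum_congr rfl h2, Finset.sum_add_distrib, Finset.sum_sub_distrib, h3,
        ← Finset.mul_sum, Finset.sum_const, nsmul_eq_mul, mul_one]
      push_cast
      rfl
    rw [h1, hn]
    refine ⟨n - ⌊(s * (∑ i ∈ I, c i : ℤ) / p : ℝ)⌋ + ∑ i ∈ I, ⌊(s * c i / p : ℝ)⌋, ?_⟩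
    have := Int.floor_add_fract (s * (∑ i ∈ I, c i : ℤ) / p : ℝ)
    push_cast at this ⊢
    linarith

theorem int_zero_of_ae {H : ℝ → ℝ} {h : ℝ → ℂ} {w : ℂ}
    (hH : ∀ᵐ x, x ∈ Set.Ioc (0 : ℝ) 1 → (H x : ℂ) = w) (hh : ∫ x in (0 : ℝ)..1, h x = 0) :
    ∫ x in (0 : ℝ)..1, (H x : ℂ) * h x = 0 := by
  have h1 : ∫ x in (0 : ℝ)..1, (H x : ℂ) * h x = ∫ x in (0 : ℝ)..1, w * h x := by
    refine intervalIntegral.integral_congr_ae (hH.mono fun x hx hxm => ?_)
    rw [Set.uIoc_of_le zero_le_one] at hxm
    simp only [hx hxm]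
  rw [h1, intervalIntegral.integral_const_mul, hh, mul_zero]

/-- A family of signs without opposite pairs whose sum is bounded by one has at most one member. -/
theorem card_le_one {p : ℕ} (hp : p.Prime) {b c : ι → ℤ} {I : Finset ι} (hb : ∀ i ∈ I, b i ≠ 0)
    (hc : ∀ i ∈ I, ¬ (p : ℤ) ∣ c i)
    (hopp : ∀ i ∈ I, ∀ l ∈ I, ¬ (b i = - b l ∧ (p : ℤ) ∣ c i + c l))
    (hF : ∀ s, 0 < s → s < p → ∀ᵐ x, |F p b c I s x| ≤ 1) : I.card ≤ 1 := by
  classical
  have hy : ∀ s, 0 < s → s < p → ∀ i ∈ I, NI (s * c i / p) := fun s h0 h1 i hi =>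
    ni hp h0 h1 (hc i hi)
  rcases Nat.even_or_odd I.card with heven | hodd
  · have h1 : I = ∅ := by
      refine zero_lemma hp hb hc hopp fun s h0 h1 β hβ => ?_
      refine int_zero_of_ae (w := 0) ?_ (int_e_mul hβ.ne')
      refine (ae_F_even hb (hy s h0 h1) heven (hF s h0 h1)).mono fun x hx _ => ?_
      rw [hx, Complex.ofReal_zero]
    rw [h1]
    simp
  have hI : I.Nonempty := Finset.card_pos.mp hodd.pos
  set C := ∑ i ∈ I, c i with hCdef
  by_cases hC : (p : ℤ) ∣ C
  · exfalso
    have h1 : I = ∅ := by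
      refine zero_lemma hp hb hc hopp fun s h0 h1 β hβ => ?_
      obtain ⟨μ, hμ, hμ1, z, hz⟩ := mean_odd hb (hy s h0 h1) hodd (hF s h0 h1)
      have hfr : Int.fract (s * (C : ℤ) / p : ℝ) = 0 := by
        obtain ⟨k, hk⟩ := hC
        have hpR : (p : ℝ) ≠ 0 := by exact_mod_cast hp.pos.ne'
        have h2 : (s * (C : ℤ) / p : ℝ) = ((s * k : ℤ) : ℝ) := by
          rw [hk]; push_cast; field_simp
        rw [h2, Int.fract_intCast]
      rw [← hCdef, hfr] at hz
      have h3 : μ = ((1 + 2 * z : ℤ) : ℝ) := by rw [hz]; push_cast; ring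
      rw [h3] at hμ1
      have h4 : |1 + 2 * z| ≤ 1 := by exact_mod_cast hμ1
      have h5 : 1 + 2 * z = 1 ∨ 1 + 2 * z = -1 := by
        have := abs_le.mp h4
        omega
      set ε := 1 + 2 * z with hε
      have h6 := int_le (measurable_F p b c I s) (hF s h0 h1)
        (continuous_const : Continuous fun _ : ℝ => (ε : ℝ))
      have h7 : ∫ x in (0 : ℝ)..1, F p b c I s x = ε := by
        simp only [mul_one] at hμ
        rw [intervalIntegral.integral_ofReal, h3] at hμ
        exact_mod_cast hμ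
      have hεε : (ε : ℝ) * ε = 1 := by
        rcases h5 with h | h <;> rw [h] <;> norm_num
      have hεabs : |(ε : ℝ)| = 1 := by
        rcases h5 with h | h <;> rw [h] <;> norm_num
      have h8 := h6.2.2 (by
        rw [intervalIntegral.integral_mul_const, h7, hεε]
        simp [hεabs])
      refine int_zero_of_ae (w := (ε : ℂ)) (h8.mono fun x hx hxm => ?_) (int_e_mul hβ.ne')
      have h9 := hx hxm
      rw [hεabs] at h9
      have h10 : F p b c I s x = ε := by
        calc F p b c I s x = (F p b c I s x * ε) * ε := by rw [mul_assoc, hεε, mul_one]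
          _ = ε := by rw [h9, one_mul]
      rw [h10, Complex.ofReal_intCast]
    exact hI.ne_empty h1
  · -- the extremal case
    obtain ⟨i0, hi0, hmin⟩ := Finset.exists_min_image I (fun i => |b i|) hI
    set β := |b i0| with hβdef
    have hβ : 0 < β := abs_pos.mpr (hb i0 hi0)
    set κ : ι → ℤ := fun i => Int.sign (b i) with hκ
    set d : ι → ℤ := fun i => - Int.sign (b i) * c i with hd
    set J := I.filter fun i => |b i| = β with hJ
    have hJne : J.Nonempty := ⟨i0, Finset.mem_filter.mpr ⟨hi0, rfl⟩⟩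
    have hJI : ∀ i ∈ J, i ∈ I := fun i hi => (Finset.mem_filter.mp hi).1
    have hκ1 : ∀ i ∈ J, κ i = 1 ∨ κ i = -1 := by
      intro i hi
      rcases lt_or_gt_of_ne (hb i (hJI i hi)) with h | h
      · exact Or.inr (Int.sign_eq_neg_one_of_neg h)
      · exact Or.inl (Int.sign_eq_one_of_pos h)
    have hbκ : ∀ i ∈ J, b i = κ i * β := by
      intro i hi
      rw [← (Finset.mem_filter.mp hi).2]
      exact (Int.sign_mul_abs (b i)).symm
    have hd0 : ∀ i ∈ J, ¬ (p : ℤ) ∣ d i := by
      intro i hi h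
      apply hc i (hJI i hi)
      rcases hκ1 i hi with h1 | h1
      · simp only [hd] at h
        simp only [hκ] at h1
        rw [h1] at h
        simpa using h
      · simp only [hd] at h
        simp only [hκ] at h1
        rw [h1] at h
        simpa using h
    have hoppJ : ∀ i ∈ J, ∀ l ∈ J, (p : ℤ) ∣ d i - d l → κ i = κ l := by
      intro i hi l hl h
      by_contra hne'
      have h1 : κ i = - κ l := by
        rcases hκ1 i hi with h1 | h1 <;> rcases hκ1 l hl with h2 | h2
        · exact absurd (h1.trans h2.symm) hne'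
        · rw [h1, h2]; norm_num
        · rw [h1, h2]
        · exact absurd (h1.trans h2.symm) hne'
      apply hopp i (hJI i hi) l (hJI l hl)
      refine ⟨by rw [hbκ i hi, hbκ l hl, h1]; ring, ?_⟩
      have h2 : d i - d l = κ l * (c i + c l) := by
        have e1 : d i = - κ i * c i := rfl
        have e2 : d l = - κ l * c l := rfl
        rw [e1, e2, h1]
        ring
      rw [h2] at h
      rcases hκ1 l hl with h3 | h3
      · rw [h3, one_mul] at h; exact h
      · rw [h3] at h
        have h4 : (-1 : ℤ) * (c i + c l) = -(c i + c l) := by ring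
        rw [h4] at h
        exact (dvd_neg).mp h
    have hyC : ∀ s, 0 < s → s < p → NI (s * C / p) := fun s h0 h1 => ni hp h0 h1 hC
    have hbound : ∀ s, 0 < s → s < p → _ := fun s (h0 : 0 < s) (h1 : s < p) =>
      bound (measurable_F p b c I s) (hF s h0 h1)
        (fun h hh => intInt_F p b c I s h hh 0 1) (hyC s h0 h1) (by
          obtain ⟨μ, hμ, hμ1, z, hz⟩ := mean_odd hb (hy s h0 h1) hodd (hF s h0 h1)
          rw [hμ, mean_value hμ1 hz (hyC s h0 h1)]) hβ.ne'
        (harm_F hβ hmin (hy s h0 h1))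
    -- equality of the sums
    have hle : ∀ s ∈ range p, Complex.normSq (Q p κ d J s) ≤
        Complex.normSq (1 - e (s * C / p)) := by
      intro s hs
      rcases Nat.eq_zero_or_pos s with h0 | h0
      · subst h0
        simp [Q, e_zero]
      · exact (hbound s h0 (Finset.mem_range.mp hs)).1
    have hsum : ∑ s ∈ range p, Complex.normSq (Q p κ d J s) =
        ∑ s ∈ range p, Complex.normSq (1 - e (s * C / p)) := by
      refine le_antisymm (Finset.sum_le_sum hle) ?_
      rw [pars_single hp.pos hC, pars hp.pos κ d J hd0]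
      have h2 := two_le_Nf hJne hκ1 hoppJ
      have h3 : (0 : ℝ) < p := by exact_mod_cast hp.pos
      have h4 : (2 : ℝ) ≤ Nf p κ d J := by exact_mod_cast h2
      nlinarith
    have heq := (Finset.sum_eq_sum_iff_of_le hle).mp hsum
    -- the sign
    set ε : ℤ := ∑ i ∈ I, Int.sign (b i) with hε
    have hε1 : ε = 1 ∨ ε = -1 := by
      have h1 : (1 : ℕ) < p := hp.one_lt
      obtain ⟨x, -, -, hx1, hx2, -⟩ := ae_right (ae_F_odd hb (hy 1 one_pos h1) hodd
        (hF 1 one_pos h1)) (F_right hb (hy 1 one_pos h1))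
      rw [hx2] at hx1
      rcases hx1 with h | h
      · left; exact_mod_cast h
      · right; exact_mod_cast h
    have hmain : ∀ s, 0 < s → s < p → ∀ᵐ x, x ∈ Set.Ioc (0 : ℝ) 1 →
        F p b c I s x = f (((ε * β : ℤ) : ℝ) * x) (s * C / p) := by
      intro s h0 h1
      obtain ⟨φ, hφ⟩ := (hbound s h0 h1).2 (heq s (Finset.mem_range.mpr h1))
      exact jump hε1 (F_right hb (hy s h0 h1)) (hyC s h0 h1) hβ hφ
    have hεβ : ε * β ≠ 0 := by
      rcases hε1 with h | h <;> rw [h] <;> omega
    -- an opposite pair in the extended family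
    have hpair : ∃ i ∈ I, b i = ε * β ∧ (p : ℤ) ∣ c i - C := by
      by_contra hcon
      push Not at hcon
      let b' : Option ι → ℤ := fun o => o.elim (-(ε * β)) b
      let c' : Option ι → ℤ := fun o => o.elim (-C) c
      have hzero := zero_lemma (I := Finset.insertNone I) (b := b') (c := c') hp ?_ ?_ ?_ ?_
      · have : none ∈ Finset.insertNone I := Finset.none_mem_insertNone
        rw [hzero] at this
        exact absurd this (Finset.notMem_empty _)
      · intro o ho
        cases o with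
        | none => exact neg_ne_zero.mpr hεβ
        | some i => exact hb i (Finset.some_mem_insertNone.mp ho)
      · intro o ho
        cases o with
        | none => exact fun h => hC ((dvd_neg).mp h)
        | some i => exact hc i (Finset.some_mem_insertNone.mp ho)
      · rintro o ho o' ho' ⟨h1, h2⟩
        cases o with
        | none =>
          cases o' with
          | none =>
            change -(ε * β) = - -(ε * β) at h1
            omega
          | some l =>
            change -(ε * β) = - b l at h1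
            change (p : ℤ) ∣ -C + c l at h2
            exact hcon l (Finset.some_mem_insertNone.mp ho') (by omega)
              (by rwa [neg_add_eq_sub] at h2)
        | some i =>
          cases o' with
          | none =>
            change b i = - -(ε * β) at h1
            change (p : ℤ) ∣ c i + -C at h2
            exact hcon i (Finset.some_mem_insertNone.mp ho) (by omega)
              (by rwa [← sub_eq_add_neg] at h2)
          | some l =>
            exact hopp i (Finset.some_mem_insertNone.mp ho) l (Finset.some_mem_insertNone.mp ho')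
              ⟨h1, h2⟩
      · intro s h0 h1 β' hβ'
        refine int_zero_of_ae (w := 0) ?_ (int_e_mul hβ'.ne')
        refine (hmain s h0 h1).mono fun x hx hxm => ?_
        have h2 : F p b' c' (Finset.insertNone I) s x =
            f (((-(ε * β) : ℤ) : ℝ) * x) (s * ((-C : ℤ) : ℝ) / p) + F p b c I s x := by
          unfold F
          rw [Finset.sum_insertNone]
          rfl
        have h3 : f (((-(ε * β) : ℤ) : ℝ) * x) (s * ((-C : ℤ) : ℝ) / p) =
            - f (((ε * β : ℤ) : ℝ) * x) (s * C / p) := by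
          rw [← f_neg]
          congr 1
          · push_cast; ring
          · push_cast; ring
        rw [h2, h3, hx hxm, neg_add_cancel, Complex.ofReal_zero]
    obtain ⟨i1, hi1, hbi1, hci1⟩ := hpair
    have herase : I.erase i1 = ∅ := by
      refine zero_lemma hp (b := b) (c := c) (fun i hi => hb i (Finset.mem_of_mem_erase hi))
        (fun i hi => hc i (Finset.mem_of_mem_erase hi))
        (fun i hi l hl => hopp i (Finset.mem_of_mem_erase hi) l (Finset.mem_of_mem_erase hl)) ?_
      intro s h0 h1 β' hβ'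
      refine int_zero_of_ae (w := 0) ?_ (int_e_mul hβ'.ne')
      refine (hmain s h0 h1).mono fun x hx hxm => ?_
      have h2 : F p b c I s x = F p b c (I.erase i1) s x + f (b i1 * x) (s * c i1 / p) :=
        (Finset.sum_erase_add I _ hi1).symm
      have h3 : f (b i1 * x) (s * c i1 / p) = f (((ε * β : ℤ) : ℝ) * x) (s * C / p) := by
        obtain ⟨k, hk⟩ := hci1
        have hpR : (p : ℝ) ≠ 0 := by exact_mod_cast hp.pos.ne'
        have h4 : (s * c i1 / p : ℝ) = s * C / p + ((s * k : ℤ) : ℝ) := by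
          have h5 : (c i1 : ℝ) = C + p * k := by
            have : c i1 = C + p * k := by linarith
            exact_mod_cast this
          rw [h5]
          push_cast
          field_simp
        rw [h4, f_add_int_right, hbi1]
      have h4 : F p b c (I.erase i1) s x = 0 := by
        have h5 := hx hxm
        rw [h2, h3] at h5
        linarith
      rw [h4, Complex.ofReal_zero]
    have h1 := Finset.card_erase_add_one hi1
    rw [herase, Finset.card_empty] at h1
    omega

end Pool.Agent.Superell
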