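import Pool.Agent.Superell.Lift

/-!
# Vectors of pairs of residues all of whose unit multiples are balanced
-/

set_option autoImplicit false

open Finset Matrix MeasureTheory

namespace Pool.Agent.Superell

open Pool.Agent.FermatFam

theorem rm_zero {k r : ℕ} : rm (0 : Matrix (Fin k) (Fin r) ℤ) = 0 := by
  ext
  simp [rm]

/-- The open set of the vectors of pairs without zeros of `G` such that less than `j` of the values
of `G` are positive, or less than `j` are negative. -/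
def U2 (k j : ℕ) : Set (Fin (k + k) → ℝ) :=
  {x | (∀ i : Fin k, G (x (Fin.castAdd k i)) (x (Fin.natAdd k i)) ≠ 0) ∧
    ¬ (j ≤ #{i : Fin k | 0 < G (x (Fin.castAdd k i)) (x (Fin.natAdd k i))} ∧
      j ≤ #{i : Fin k | G (x (Fin.castAdd k i)) (x (Fin.natAdd k i)) < 0})}

theorem G_add_int (x y : ℝ) (z w : ℤ) : G (x + z) (y + w) = G x y := by
  rw [G_add_int_left, G_add_int_right]

theorem U2_open (k j : ℕ) : OpenPeriodic (U2 k j) := by
  rintro x ⟨hx, hcount⟩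
  have h1 : ∀ i : Fin k, ∃ ε > 0, ∀ s t : ℝ, |s| < ε → |t| < ε →
      0 < G (x (Fin.castAdd k i) + s) (x (Fin.natAdd k i) + t) *
        G (x (Fin.castAdd k i)) (x (Fin.natAdd k i)) := by
    intro i
    have hc : Continuous fun q : ℝ × ℝ => G (x (Fin.castAdd k i) + q.1) (x (Fin.natAdd k i) + q.2) *
        G (x (Fin.castAdd k i)) (x (Fin.natAdd k i)) := by
      unfold G
      fun_prop
    have hpos : 0 < G (x (Fin.castAdd k i) + (0 : ℝ × ℝ).1) (x (Fin.natAdd k i) + (0 : ℝ × ℝ).2) *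
        G (x (Fin.castAdd k i)) (x (Fin.natAdd k i)) := by
      rw [Prod.fst_zero, Prod.snd_zero, add_zero, add_zero]
      exact mul_self_pos.mpr (hx i)
    obtain ⟨ε, hε, h⟩ := Metric.eventually_nhds_iff.mp
      (hc.continuousAt.eventually (lt_mem_nhds hpos))
    refine ⟨ε, hε, fun s t hs ht => h (y := (s, t)) ?_⟩
    rw [Prod.dist_eq]
    simp only [Prod.fst_zero, Prod.snd_zero, Real.dist_eq, sub_zero]
    exact max_lt hs ht
  choose ε hε h using h1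
  obtain ⟨ε0, hε0, hle⟩ := exists_pos_le ε hε
  refine ⟨ε0, hε0, fun η hη z => ?_⟩
  have h2 : ∀ i : Fin k, 0 < G (x (Fin.castAdd k i) + η (Fin.castAdd k i) + z (Fin.castAdd k i))
      (x (Fin.natAdd k i) + η (Fin.natAdd k i) + z (Fin.natAdd k i)) *
      G (x (Fin.castAdd k i)) (x (Fin.natAdd k i)) := by
    intro i
    rw [G_add_int]
    exact h i _ _ (lt_of_lt_of_le (hη _) (hle i)) (lt_of_lt_of_le (hη _) (hle i))
  have h3 : ∀ i : Fin k, (0 < G (x (Fin.castAdd k i) + η (Fin.castAdd k i) +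
      z (Fin.castAdd k i)) (x (Fin.natAdd k i) + η (Fin.natAdd k i) + z (Fin.natAdd k i)) ↔
      0 < G (x (Fin.castAdd k i)) (x (Fin.natAdd k i))) := by
    intro i
    rcases mul_pos_iff.mp (h2 i) with h | h
    · exact ⟨fun _ => h.2, fun _ => h.1⟩
    · exact ⟨fun h' => absurd h' (not_lt.mpr h.1.le), fun h' => absurd h' (not_lt.mpr h.2.le)⟩
  have h4 : ∀ i : Fin k, (G (x (Fin.castAdd k i) + η (Fin.castAdd k i) +
      z (Fin.castAdd k i)) (x (Fin.natAdd k i) + η (Fin.natAdd k i) + z (Fin.natAdd k i)) < 0 ↔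
      G (x (Fin.castAdd k i)) (x (Fin.natAdd k i)) < 0) := by
    intro i
    rcases mul_pos_iff.mp (h2 i) with h | h
    · exact ⟨fun h' => absurd h' (not_lt.mpr h.1.le), fun h' => absurd h' (not_lt.mpr h.2.le)⟩
    · exact ⟨fun _ => h.2, fun _ => h.1⟩
  refine ⟨fun i => left_ne_zero_of_mul (h2 i).ne', ?_⟩
  simp only [h3, h4]
  exact hcount

theorem mem_of_congr {ℓ : ℕ} {U : Set (Fin ℓ → ℝ)} (hU : OpenPeriodic U) {x x' : Fin ℓ → ℝ}
    (h : ∀ i, ∃ z : ℤ, x' i = x i + z) (hx : x ∈ U) : x' ∈ U := by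
  obtain ⟨ε, hε, h1⟩ := hU x hx
  choose z hz using h
  have h2 := h1 (fun _ => 0) (fun _ => by rw [abs_zero]; exact hε) z
  have h3 : x' = fun i => x i + 0 + z i := by
    funext i
    rw [hz i, add_zero]
  rw [h3]
  exact h2

/-- the upper part of the matrix of the family -/
def uP {k : ℕ} (A : Family (k + k)) : Matrix (Fin k) (Fin A.r) ℤ :=
  fun i l => A.B (Fin.castAdd k i) l

/-- the lower part of the matrix of the family -/
def lP {k : ℕ} (A : Family (k + k)) : Matrix (Fin k) (Fin A.r) ℤ :=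
  fun i l => A.B (Fin.natAdd k i) l

theorem point_cast {k : ℕ} (A : Family (k + k)) (y : Fin A.r → ℝ) (s : ℤ) (i : Fin k) :
    A.point y s (Fin.castAdd k i) = (rm (uP A) *ᵥ y) i + (s * A.c (Fin.castAdd k i) : ℝ) / A.q := by
  simp [Family.point, rm, uP, Matrix.mulVec, dotProduct]

theorem point_nat {k : ℕ} (A : Family (k + k)) (y : Fin A.r → ℝ) (s : ℤ) (i : Fin k) :
    A.point y s (Fin.natAdd k i) = (rm (lP A) *ᵥ y) i + (s * A.c (Fin.natAdd k i) : ℝ) / A.q := by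
  simp [Family.point, rm, lP, Matrix.mulVec, dotProduct]

/-- The arithmetic data. -/
structure Ar (m n : ℕ) (u v : ℤ) : Prop where
  mpos : 0 < m
  npos : 0 < n
  cop : m.Coprime n
  mu : (m : ℤ) ∣ u
  nu : (n : ℤ) ∣ u - 1
  nv : (n : ℤ) ∣ v
  mv : (m : ℤ) ∣ v - 1

namespace Ar

variable {m n : ℕ} {u v : ℤ}

theorem mn_uv (h : Ar m n u v) : ((m * n : ℕ) : ℤ) ∣ u * v := by
  push_cast
  exact mul_dvd_mul h.mu h.nv

theorem mn_uu (h : Ar m n u v) : ((m * n : ℕ) : ℤ) ∣ (u - 1) * u := by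
  push_cast
  rw [mul_comm (m : ℤ)]
  exact mul_dvd_mul h.nu h.mu

theorem mn_vv (h : Ar m n u v) : ((m * n : ℕ) : ℤ) ∣ (v - 1) * v := by
  push_cast
  exact mul_dvd_mul h.mv h.nv

theorem mn_nu (h : Ar m n u v) : ((m * n : ℕ) : ℤ) ∣ n * u := by
  push_cast
  rw [mul_comm (m : ℤ)]
  exact mul_dvd_mul dvd_rfl h.mu

theorem mn_mv (h : Ar m n u v) : ((m * n : ℕ) : ℤ) ∣ m * v := by
  push_cast
  exact mul_dvd_mul dvd_rfl h.nv

/-- If `u a / (m n)` is an integer then `n` divides `a`. -/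
theorem n_dvd (h : Ar m n u v) {a z : ℤ} (hz : (u * a : ℝ) / (m * n : ℕ) = z) : (n : ℤ) ∣ a := by
  have hmn : (((m * n : ℕ) : ℕ) : ℝ) ≠ 0 := by
    have := Nat.mul_pos h.mpos h.npos
    exact_mod_cast this.ne'
  rw [div_eq_iff hmn] at hz
  have h1 : u * a = z * ((m * n : ℕ) : ℤ) := by exact_mod_cast hz
  have h2 : (n : ℤ) ∣ u * a := by
    rw [h1]
    push_cast
    exact ⟨z * m, by ring⟩
  have h3 : (n : ℤ) ∣ (u - 1) * a := h.nu.mul_right a
  have h4 := dvd_sub h2 h3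
  have h5 : u * a - (u - 1) * a = a := by ring
  rwa [h5] at h4

theorem m_dvd (h : Ar m n u v) {a z : ℤ} (hz : (v * a : ℝ) / (m * n : ℕ) = z) : (m : ℤ) ∣ a := by
  have hmn : (((m * n : ℕ) : ℕ) : ℝ) ≠ 0 := by
    have := Nat.mul_pos h.mpos h.npos
    exact_mod_cast this.ne'
  rw [div_eq_iff hmn] at hz
  have h1 : v * a = z * ((m * n : ℕ) : ℤ) := by exact_mod_cast hz
  have h2 : (m : ℤ) ∣ v * a := by
    rw [h1]
    push_cast
    exact ⟨z * n, by ring⟩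
  have h3 : (m : ℤ) ∣ (v - 1) * a := h.mv.mul_right a
  have h4 := dvd_sub h2 h3
  have h5 : v * a - (v - 1) * a = a := by ring
  rwa [h5] at h4

end Ar

/-- The frequencies and residues obtained from a family. -/
structure Data (k j : ℕ) (m n : ℕ) (a : Fin k → ℤ) (p : ℕ) (b c : Fin k → ℤ) : Prop where
  prime : p.Prime
  hb : ∀ i, b i ≠ 0
  hc : ∀ i, ¬ (p : ℤ) ∣ c i
  opp : ∀ i l, b i = - b l → (p : ℤ) ∣ c i + c l → ((m * n : ℕ) : ℤ) ∣ a i + a l
  avoid : ∀ (s : ℕ) (τ : ℝ), 0 < s → s < p →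
    (Fin.append (fun i => b i * τ) (fun i => s * c i / p) : Fin (k + k) → ℝ) ∉ U2 k j

section Cases

variable {k j : ℕ} {A : Family (k + k)} {m n : ℕ} {u v : ℤ} {a : Fin k → ℤ}

/-- The vector of length `2 k`. -/
def vec (u v : ℤ) (a : Fin k → ℤ) : Fin (k + k) → ℤ :=
  Fin.append (fun i => u * a i) (fun i => v * a i)

theorem freq (h : Ar m n u v) (ha : ∀ i, ¬ (n : ℤ) ∣ a i) {r : ℕ} (M : Matrix (Fin k) (Fin r) ℤ)
    {ρ : Fin r → ℝ} (hρ : ∀ i, ∃ z : ℤ, (rm M *ᵥ ρ) i = (u * a i : ℝ) / (m * n : ℕ) + z)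
    {w : Fin r → ℤ} (hw1 : ∀ i, M i ≠ 0 → (M *ᵥ w) i ≠ 0)
    (hw2 : ∀ i l, (M *ᵥ w) i + (M *ᵥ w) l = 0 → M i + M l = 0) :
    (∀ i, (M *ᵥ w) i ≠ 0) ∧ ∀ i l, (M *ᵥ w) i = - (M *ᵥ w) l → (n : ℤ) ∣ a i + a l := by
  have hrow : ∀ i, (rm M *ᵥ ρ) i = ∑ x, (M i x : ℝ) * ρ x := by
    intro i
    simp [rm, Matrix.mulVec, dotProduct]
  refine ⟨fun i => hw1 i fun h0 => ha i ?_, fun i l hil => ?_⟩
  · obtain ⟨z, hz⟩ := hρ i
    rw [hrow, h0] at hz
    simp only [Pi.zero_apply, Int.cast_zero, zero_mul, Finset.sum_const_zero] at hz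
    exact h.n_dvd (z := -z) (by push_cast at hz ⊢; linarith)
  · have h1 := hw2 i l (by rw [hil]; ring)
    obtain ⟨z, hz⟩ := hρ i
    obtain ⟨z', hz'⟩ := hρ l
    rw [hrow] at hz hz'
    have h2 : ∑ x, (M i x : ℝ) * ρ x + ∑ x, (M l x : ℝ) * ρ x = 0 := by
      rw [← Finset.sum_add_distrib]
      refine Finset.sum_eq_zero fun x _ => ?_
      have h3 := congrFun h1 x
      rw [Pi.add_apply, Pi.zero_apply] at h3
      have h4 : (M i x : ℝ) + M l x = 0 := by exact_mod_cast h3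
      rw [← add_mul, h4, zero_mul]
    refine h.n_dvd (z := -(z + z')) ?_
    rw [hz, hz'] at h2
    push_cast at h2 ⊢
    rw [mul_add, add_div]
    linarith

/-- The first case: `m` is a prime number. -/
theorem case_one (hA : Avoids (U2 k j) A) (hq : 0 < A.q) (h : Ar m n u v) (hm : m.Prime)
    {E : ℕ} {S : Matrix (Fin A.r) (Fin k) ℤ} (hE : 0 < E) (hS : lP A * S * lP A = (E : ℤ) • lP A)
    (hqn : Nat.Coprime A.q n) (hEn : Nat.Coprime E n)
    (hmem : A.Mem (m * n) (vec u v a)) (han : ∀ i, ¬ (n : ℤ) ∣ a i) (ham : ∀ i, ¬ (m : ℤ) ∣ a i) :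
    ∃ p b c, Data k j m n a p b c := by
  obtain ⟨hqN, κ, hκ⟩ := hmem
  have hN : 0 < m * n := Nat.mul_pos h.mpos h.npos
  have hqm : A.q ∣ m := hqn.dvd_of_dvd_mul_right hqN
  have hqu : (A.q : ℤ) ∣ u := dvd_trans (by exact_mod_cast hqm) h.mu
  have hP : ∀ i, ((m * n : ℕ) : ℤ) ∣ u * a i - ((uP A *ᵥ κ) i +
      ((m * n / A.q : ℕ) : ℤ) * A.c (Fin.castAdd k i)) := by
    intro i
    have h1 := hκ (Fin.castAdd k i)
    rw [vec, Fin.append_left] at h1
    exact h1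
  have hR : ∀ i, ((m * n : ℕ) : ℤ) ∣ v * a i - ((lP A *ᵥ κ) i +
      ((m * n / A.q : ℕ) : ℤ) * A.c (Fin.natAdd k i)) := by
    intro i
    have h1 := hκ (Fin.natAdd k i)
    rw [vec, Fin.append_right] at h1
    exact h1
  obtain ⟨ξ, hξ1, hξ2⟩ := part hS hN hEn hq hqN hP hR hqu
    (fun i => by rw [← mul_assoc]; exact h.mn_uu.mul_right _)
    (fun i => by rw [← mul_assoc]; exact h.mn_uv.mul_right _)
    (fun i => by rw [← mul_assoc]; exact h.mn_nu.mul_right _)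
  set K := Km (lP A) S E with hK
  set M := uP A * K with hM
  obtain ⟨w, hw1, hw2⟩ := generic M
  have hER : (E : ℝ) ≠ 0 := by exact_mod_cast hE.ne'
  have hρ : ∀ i, ∃ z : ℤ, (rm M *ᵥ ((E : ℝ)⁻¹ • ξ)) i = (u * a i : ℝ) / (m * n : ℕ) + z := by
    intro i
    obtain ⟨z, hz⟩ := hξ1 i
    refine ⟨z, ?_⟩
    rw [hM, rm_mul, ← Matrix.mulVec_mulVec, Matrix.mulVec_smul, Km_apply hξ2, smul_smul,
      Int.cast_natCast, inv_mul_cancel₀ hER, one_smul, hz]
    push_cast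
    rfl
  obtain ⟨hb1, hb2⟩ := freq h han M hρ hw1 hw2
  obtain ⟨v', hv'⟩ := h.nv
  have hmR : (m : ℝ) ≠ 0 := by exact_mod_cast h.mpos.ne'
  have hnR : (n : ℝ) ≠ 0 := by exact_mod_cast h.npos.ne'
  have hvR : (v : ℝ) = n * v' := by exact_mod_cast hv'
  have hycast : ∀ i, (v * a i : ℝ) / (m * n : ℕ) = ((v' * a i : ℤ) : ℝ) / m := by
    intro i
    rw [hvR]
    push_cast
    field_simp
  have hmdvd : ∀ x : ℤ, (m : ℤ) ∣ v' * x → (m : ℤ) ∣ x := by
    intro x hx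
    have h1 : (m : ℤ) ∣ v * x := by
      rw [hv', mul_assoc]
      exact hx.mul_left _
    have h2 := dvd_sub h1 (h.mv.mul_right x)
    have h3 : v * x - (v - 1) * x = x := by ring
    rwa [h3] at h2
  refine ⟨m, M *ᵥ w, fun i => v' * a i, hm, hb1, fun i hi => ham i (hmdvd _ hi),
    fun i l h1 h2 => ?_, fun s τ hs0 hs => ?_⟩
  · have h3 := hb2 i l h1
    have h4 : (m : ℤ) ∣ a i + a l := hmdvd _ (by rw [mul_add]; exact h2)
    push_cast
    exact (Nat.isCoprime_iff_coprime.mpr h.cop).mul_dvd h4 h3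
  · intro hbad
    have hsq : IsCoprime (s : ℤ) (A.q : ℤ) := by
      rw [Nat.isCoprime_iff_coprime]
      have h1 : Nat.Coprime s m := by
        rw [Nat.coprime_comm, hm.coprime_iff_not_dvd]
        exact fun h2 => absurd (Nat.le_of_dvd hs0 h2) (not_le.mpr hs)
      exact h1.coprime_dvd_right hqm
    refine hA (rm K *ᵥ (τ • fun l => (w l : ℝ)) +
      (s : ℝ) • ((((m * n : ℕ) : ℝ)⁻¹ • fun l => (κ l : ℝ)) - ξ)) s hsq ?_
    refine mem_of_congr (U2_open k j) (fun i => ?_) hbad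
    have hNR : (((m * n : ℕ) : ℕ) : ℝ) ≠ 0 := by exact_mod_cast hN.ne'
    have hqR : (A.q : ℝ) ≠ 0 := by exact_mod_cast hq.ne'
    obtain ⟨N', hN'⟩ := hqN
    have hNq : m * n / A.q = N' := by rw [hN']; exact Nat.mul_div_cancel_left N' hq
    have hN'R : ((m * n : ℕ) : ℝ) = A.q * N' := by exact_mod_cast hN'
    have hN'0 : (N' : ℝ) ≠ 0 := by
      intro h0
      rw [h0, mul_zero] at hN'R
      exact hNR hN'R
    refine Fin.addCases (fun i => ?_) (fun i => ?_) i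
    · rw [Fin.append_left, point_cast, Matrix.mulVec_add, Matrix.mulVec_mulVec, ← rm_mul, ← hM,
        Matrix.mulVec_smul, Matrix.mulVec_smul, Matrix.mulVec_sub, Matrix.mulVec_smul]
      simp only [Pi.add_apply, Pi.smul_apply, Pi.sub_apply, smul_eq_mul, rm_int]
      obtain ⟨z, hz⟩ := hξ1 i
      obtain ⟨z', hz'⟩ := hP i
      rw [hNq] at hz'
      have h1 : ((uP A *ᵥ κ) i : ℝ) = u * a i - N' * A.c (Fin.castAdd k i) - ((m * n : ℕ) : ℝ) * z' := by
        have : (uP A *ᵥ κ) i = u * a i - N' * A.c (Fin.castAdd k i) - ((m * n : ℕ) : ℤ) * z' := by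
          linarith
        exact_mod_cast this
      rw [h1, hz]
      refine ⟨-(s * (z' + z)), ?_⟩
      push_cast [Int.cast_natCast] at hN'R ⊢
      rw [hN'R]
      field_simp
      ring
    · rw [Fin.append_right, point_nat, Matrix.mulVec_add, Matrix.mulVec_mulVec, ← rm_mul,
        hK, R_Km hS, rm_zero, Matrix.zero_mulVec, Matrix.mulVec_smul, Matrix.mulVec_sub,
        Matrix.mulVec_smul, hξ2]
      simp only [Pi.add_apply, Pi.smul_apply, Pi.sub_apply, Pi.zero_apply, smul_eq_mul, rm_int]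
      obtain ⟨z', hz'⟩ := hR i
      rw [hNq] at hz'
      have h1 : ((lP A *ᵥ κ) i : ℝ) = v * a i - N' * A.c (Fin.natAdd k i) - ((m * n : ℕ) : ℝ) * z' := by
        have : (lP A *ᵥ κ) i = v * a i - N' * A.c (Fin.natAdd k i) - ((m * n : ℕ) : ℤ) * z' := by
          linarith
        exact_mod_cast this
      have h2 : (s * ((v' * a i : ℤ) : ℝ) / m : ℝ) = s * ((v * a i : ℝ) / (m * n : ℕ)) := by
        rw [hycast]; ring
      rw [h1, h2]
      refine ⟨-(s * z'), ?_⟩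
      push_cast [Int.cast_natCast] at hN'R ⊢
      rw [hN'R]
      field_simp
      ring

theorem Ar.symm (h : Ar m n u v) : Ar n m v u :=
  ⟨h.npos, h.mpos, h.cop.symm, h.nv, h.mv, h.mu, h.nu⟩

theorem exists_large_prime (c : Fin k → ℤ) (hc : ∀ i, c i ≠ 0) : ∃ p : ℕ, p.Prime ∧
    (∀ i, ¬ (p : ℤ) ∣ c i) ∧ ∀ i l, (p : ℤ) ∣ c i + c l → c i + c l = 0 := by
  set B : ℕ := ∑ i, (c i).natAbs with hB
  obtain ⟨p, hpB, hp⟩ := Nat.exists_infinite_primes (2 * B + 1)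
  have h1 : ∀ i, (c i).natAbs ≤ B := fun i =>
    Finset.single_le_sum (f := fun i => (c i).natAbs) (fun _ _ => Nat.zero_le _) (Finset.mem_univ i)
  refine ⟨p, hp, fun i hi => ?_, fun i l hil => ?_⟩
  · have h2 := Int.natAbs_dvd_natAbs.mpr hi
    rw [Int.natAbs_natCast] at h2
    have h3 := Nat.le_of_dvd (Int.natAbs_pos.mpr (hc i)) h2
    have h4 := h1 i
    omega
  · by_contra hne
    have h2 := Int.natAbs_dvd_natAbs.mpr hil
    rw [Int.natAbs_natCast] at h2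
    have h3 := Nat.le_of_dvd (Int.natAbs_pos.mpr hne) h2
    have h4 := Int.natAbs_add_le (c i) (c l)
    have h5 := h1 i
    have h6 := h1 l
    omega

/-- The second case: `m` avoids the exceptional divisors as well. -/
theorem case_two (hA : Avoids (U2 k j) A) (hq : A.q = 1) (h : Ar m n u v)
    {E : ℕ} {S : Matrix (Fin A.r) (Fin k) ℤ} (hE : 0 < E) (hS : lP A * S * lP A = (E : ℤ) • lP A)
    {E' : ℕ} {S' : Matrix (Fin A.r) (Fin k) ℤ} (hE' : 0 < E')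
    (hS' : uP A * S' * uP A = (E' : ℤ) • uP A)
    (hEn : Nat.Coprime E n) (hEm : Nat.Coprime E' m)
    (hmem : A.Mem (m * n) (vec u v a)) (han : ∀ i, ¬ (n : ℤ) ∣ a i) (ham : ∀ i, ¬ (m : ℤ) ∣ a i) :
    ∃ p b c, Data k j m n a p b c := by
  obtain ⟨hqN, κ, hκ⟩ := hmem
  have hN : 0 < m * n := Nat.mul_pos h.mpos h.npos
  have hq0 : 0 < A.q := by omega
  have hqu : (A.q : ℤ) ∣ u := by rw [hq]; exact one_dvd _
  have hqv : (A.q : ℤ) ∣ v := by rw [hq]; exact one_dvd _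
  have hP : ∀ i, ((m * n : ℕ) : ℤ) ∣ u * a i - ((uP A *ᵥ κ) i +
      ((m * n / A.q : ℕ) : ℤ) * A.c (Fin.castAdd k i)) := by
    intro i
    have h1 := hκ (Fin.castAdd k i)
    rw [vec, Fin.append_left] at h1
    exact h1
  have hR : ∀ i, ((m * n : ℕ) : ℤ) ∣ v * a i - ((lP A *ᵥ κ) i +
      ((m * n / A.q : ℕ) : ℤ) * A.c (Fin.natAdd k i)) := by
    intro i
    have h1 := hκ (Fin.natAdd k i)
    rw [vec, Fin.append_right] at h1
    exact h1
  obtain ⟨ξ, hξ1, hξ2⟩ := part hS hN hEn hq0 hqN hP hR hqu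
    (fun i => by rw [← mul_assoc]; exact h.mn_uu.mul_right _)
    (fun i => by rw [← mul_assoc]; exact h.mn_uv.mul_right _)
    (fun i => by rw [← mul_assoc]; exact h.mn_nu.mul_right _)
  obtain ⟨ξ', hξ1', hξ2'⟩ := part hS' hN hEm hq0 hqN hR hP hqv
    (fun i => by rw [← mul_assoc]; exact h.mn_vv.mul_right _)
    (fun i => by rw [← mul_assoc, mul_comm v u]; exact h.mn_uv.mul_right _)
    (fun i => by rw [← mul_assoc]; exact h.mn_mv.mul_right _)
  set K := Km (lP A) S E with hK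
  set M := uP A * K with hM
  set K' := Km (uP A) S' E' with hK'
  set M' := lP A * K' with hM'
  obtain ⟨w, hw1, hw2⟩ := generic M
  obtain ⟨w', hw1', hw2'⟩ := generic M'
  have hER : (E : ℝ) ≠ 0 := by exact_mod_cast hE.ne'
  have hER' : (E' : ℝ) ≠ 0 := by exact_mod_cast hE'.ne'
  have hρ : ∀ i, ∃ z : ℤ, (rm M *ᵥ ((E : ℝ)⁻¹ • ξ)) i = (u * a i : ℝ) / (m * n : ℕ) + z := by
    intro i
    obtain ⟨z, hz⟩ := hξ1 i
    refine ⟨z, ?_⟩
    rw [hM, rm_mul, ← Matrix.mulVec_mulVec, Matrix.mulVec_smul, Km_apply hξ2, smul_smul,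
      Int.cast_natCast, inv_mul_cancel₀ hER, one_smul, hz]
    push_cast
    rfl
  have hρ' : ∀ i, ∃ z : ℤ, (rm M' *ᵥ ((E' : ℝ)⁻¹ • ξ')) i = (v * a i : ℝ) / (n * m : ℕ) + z := by
    intro i
    obtain ⟨z, hz⟩ := hξ1' i
    refine ⟨z, ?_⟩
    rw [hM', rm_mul, ← Matrix.mulVec_mulVec, Matrix.mulVec_smul, Km_apply hξ2', smul_smul,
      Int.cast_natCast, inv_mul_cancel₀ hER', one_smul, hz, Nat.mul_comm n m]
    push_cast
    rfl
  obtain ⟨hb1, hb2⟩ := freq h han M hρ hw1 hw2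
  obtain ⟨hc1, hc2⟩ := freq h.symm ham M' hρ' hw1' hw2'
  obtain ⟨p, hp, hp1, hp2⟩ := exists_large_prime (M' *ᵥ w') hc1
  have hpR : (p : ℝ) ≠ 0 := by exact_mod_cast hp.pos.ne'
  refine ⟨p, M *ᵥ w, M' *ᵥ w', hp, hb1, hp1, fun i l h1 h2 => ?_, fun s τ hs0 hs => ?_⟩
  · have h3 := hb2 i l h1
    have h4 := hc2 i l (by have := hp2 i l h2; linarith)
    push_cast
    exact (Nat.isCoprime_iff_coprime.mpr h.cop).mul_dvd h4 h3
  · intro hbad
    refine hA (rm K *ᵥ (τ • fun l => (w l : ℝ)) +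
      rm K' *ᵥ (((s : ℝ) / p) • fun l => (w' l : ℝ))) 0 (by rw [hq]; exact isCoprime_one_right) ?_
    refine mem_of_congr (U2_open k j) (fun i => ⟨0, ?_⟩) hbad
    refine Fin.addCases (fun i => ?_) (fun i => ?_) i
    · rw [Fin.append_left, point_cast, Matrix.mulVec_add, Matrix.mulVec_mulVec,
        Matrix.mulVec_mulVec, ← rm_mul, ← rm_mul, ← hM, hK', R_Km hS', rm_zero, Matrix.zero_mulVec,
        add_zero, Matrix.mulVec_smul]
      simp only [Pi.smul_apply, smul_eq_mul, rm_int]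
      push_cast
      ring
    · rw [Fin.append_right, point_nat, Matrix.mulVec_add, Matrix.mulVec_mulVec,
        Matrix.mulVec_mulVec, ← rm_mul, ← rm_mul, ← hM', hK, R_Km hS, rm_zero, Matrix.zero_mulVec,
        zero_add, Matrix.mulVec_smul]
      simp only [Pi.smul_apply, smul_eq_mul, rm_int]
      push_cast
      ring

end Cases

/-- From the frequencies to the opposite pairs. -/
theorem Data.pairs {k j m n p : ℕ} {a b c : Fin k → ℤ} (h : Data k j m n a p b c)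
    (hk : k ≤ 2 * j + 1) : ∃ P : Finset (Fin k), P.card = j ∧ ∃ g : Fin k → Fin k,
      (∀ i ∈ P, g i ∉ P) ∧ (∀ i ∈ P, ∀ l ∈ P, g i = g l → i = l) ∧
      ∀ i ∈ P, ((m * n : ℕ) : ℤ) ∣ a i + a (g i) := by
  obtain ⟨P, -, h2, g, h3, h4, h5⟩ := Superell.pairs h.prime (b := b) (c := c) j Finset.univ
    (fun i _ => h.hb i) (fun i _ => h.hc i) (by rw [Finset.card_univ, Fintype.card_fin]; exact hk) (by
      intro s h0 h1
      filter_upwards [ae_signs (I := Finset.univ) (fun i _ => h.hb i)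
        (fun i _ => ni h.prime h0 h1 (h.hc i))] with x hx
      have h2 := h.avoid s x h0 h1
      by_contra hcon
      apply h2
      refine ⟨fun i => ?_, ?_⟩
      · rw [Fin.append_left, Fin.append_right]
        exact f_ne (hx i (Finset.mem_univ i))
      · simp only [Fin.append_left, Fin.append_right]
        exact hcon)
  exact ⟨P, h2, g, fun i hi => (h3 i hi).2, h4, fun i hi => h.opp _ _ (h5 i hi).1 (h5 i hi).2⟩

theorem coprime_of_avoid {D : Finset ℕ} {e n : ℕ} (he : 0 < e)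
    (hD : ∀ d, 1 < d → d ∣ e → d ∈ D) (hn : ∀ d ∈ D, ¬ d ∣ n) : Nat.Coprime e n := by
  by_contra hne
  have h1 : Nat.gcd e n ∣ e := Nat.gcd_dvd_left _ _
  have h2 : 0 < Nat.gcd e n := Nat.gcd_pos_of_pos_left _ he
  have h3 : Nat.gcd e n ≠ 1 := hne
  exact hn _ (hD _ (by omega) h1) (Nat.gcd_dvd_right _ _)

theorem comb_aux (k j : ℕ) (hkj : k ≤ 2 * j + 1) : ∃ D : Finset ℕ, (∀ d ∈ D, 1 < d) ∧
    ∀ (m n : ℕ) (u v : ℤ), Ar m n u v → (∀ d ∈ D, ¬ d ∣ n) → (m.Prime ∨ ∀ d ∈ D, ¬ d ∣ m) →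
      ∀ a : Fin k → ℤ, (∀ i, ¬ (n : ℤ) ∣ a i) → (∀ i, ¬ (m : ℤ) ∣ a i) →
      (∀ t : ℤ, IsCoprime t ((m * n : ℕ) : ℤ) →
        j ≤ #{i | 0 < G ((t * (u * a i) : ℝ) / (m * n : ℕ)) ((t * (v * a i) : ℝ) / (m * n : ℕ))} ∧
        j ≤ #{i | G ((t * (u * a i) : ℝ) / (m * n : ℕ)) ((t * (v * a i) : ℝ) / (m * n : ℕ)) < 0}) →
      ∃ P : Finset (Fin k), P.card = j ∧ ∃ g : Fin k → Fin k,
        (∀ i ∈ P, g i ∉ P) ∧ (∀ i ∈ P, ∀ l ∈ P, g i = g l → i = l) ∧
        ∀ i ∈ P, ((m * n : ℕ) : ℤ) ∣ a i + a (g i) := by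
  classical
  obtain ⟨Fs, hfin, hFs, hcov⟩ := main_families (U2 k j) (U2_open k j) (k + k)
    (fun i l => if i = l then 1 else 0) 1 (fun _ => 0) one_pos
  have hginv : ∀ A : Family (k + k), ∃ (E E' : ℕ) (S S' : Matrix (Fin A.r) (Fin k) ℤ),
      0 < E ∧ 0 < E' ∧ lP A * S * lP A = (E : ℤ) • lP A ∧ uP A * S' * uP A = (E' : ℤ) • uP A := by
    intro A
    obtain ⟨E, S, hE, hS⟩ := exists_ginv (lP A)
    obtain ⟨E', S', hE', hS'⟩ := exists_ginv (uP A)
    refine ⟨E, E', S, S', hE, hE', ?_, ?_⟩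
    · ext i l
      rw [Matrix.mul_apply]
      simp only [Matrix.mul_apply, Matrix.smul_apply, smul_eq_mul]
      exact hS i l
    · ext i l
      rw [Matrix.mul_apply]
      simp only [Matrix.mul_apply, Matrix.smul_apply, smul_eq_mul]
      exact hS' i l
  choose E E' S S' hE hE' hS hS' using hginv
  set D : Finset ℕ := hfin.toFinset.biUnion fun A =>
    (A.q.divisors ∪ (E A).divisors ∪ (E' A).divisors).filter (fun d => 1 < d) with hD
  refine ⟨D, fun d hd => ?_, ?_⟩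
  · obtain ⟨A, -, hA⟩ := Finset.mem_biUnion.mp hd
    exact (Finset.mem_filter.mp hA).2
  intro m n u v h hn hm a han ham hcount
  have hN : 0 < m * n := Nat.mul_pos h.mpos h.npos
  obtain ⟨A, hA, hmem⟩ := hcov (m * n) hN (vec u v a) ⟨one_dvd _, vec u v a, fun i => by simp⟩
    (fun t ht hbad => hbad.2 (by
      simpa only [vec, Fin.append_left, Fin.append_right, Int.cast_mul] using hcount t ht))
  obtain ⟨hq0, havoid, -⟩ := hFs A hA
  have hdq : ∀ d, 1 < d → d ∣ A.q → d ∈ D := fun d h1 h2 =>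
    Finset.mem_biUnion.mpr ⟨A, hfin.mem_toFinset.mpr hA, Finset.mem_filter.mpr
      ⟨Finset.mem_union_left _ (Finset.mem_union_left _
        (Nat.mem_divisors.mpr ⟨h2, hq0.ne'⟩)), h1⟩⟩
  have hdE : ∀ d, 1 < d → d ∣ E A → d ∈ D := fun d h1 h2 =>
    Finset.mem_biUnion.mpr ⟨A, hfin.mem_toFinset.mpr hA, Finset.mem_filter.mpr
      ⟨Finset.mem_union_left _ (Finset.mem_union_right _
        (Nat.mem_divisors.mpr ⟨h2, (hE A).ne'⟩)), h1⟩⟩
  have hdE' : ∀ d, 1 < d → d ∣ E' A → d ∈ D := fun d h1 h2 =>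
    Finset.mem_biUnion.mpr ⟨A, hfin.mem_toFinset.mpr hA, Finset.mem_filter.mpr
      ⟨Finset.mem_union_right _ (Nat.mem_divisors.mpr ⟨h2, (hE' A).ne'⟩), h1⟩⟩
  have hqn := coprime_of_avoid hq0 hdq hn
  have hEn := coprime_of_avoid (hE A) hdE hn
  rcases hm with hm | hm
  · obtain ⟨p, b, c, hdata⟩ := case_one havoid hq0 h hm (hE A) (hS A) hqn hEn hmem han ham
    exact hdata.pairs hkj
  · have hqm := coprime_of_avoid hq0 hdq hm
    have hEm := coprime_of_avoid (hE' A) hdE' hm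
    have hq1 : A.q = 1 := by
      have h1 : Nat.Coprime A.q (m * n) := Nat.Coprime.mul_right hqm hqn
      exact Nat.Coprime.eq_one_of_dvd h1 hmem.1
    obtain ⟨p, b, c, hdata⟩ := case_two havoid hq1 h (hE A) (hS A) (hE' A) (hS' A) hEn hEm hmem
      han ham
    exact hdata.pairs hkj

/-- The set of exceptional divisors for vectors of length `k`. -/
theorem comb (k : ℕ) : ∃ D : Finset ℕ, (∀ d ∈ D, 1 < d) ∧
    ∀ (m n : ℕ) (u v : ℤ), Ar m n u v → (∀ d ∈ D, ¬ d ∣ n) → (m.Prime ∨ ∀ d ∈ D, ¬ d ∣ m) →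
      ∀ j : ℕ, k ≤ 2 * j + 1 →
      ∀ a : Fin k → ℤ, (∀ i, ¬ (n : ℤ) ∣ a i) → (∀ i, ¬ (m : ℤ) ∣ a i) →
      (∀ t : ℤ, IsCoprime t ((m * n : ℕ) : ℤ) →
        j ≤ #{i | 0 < G ((t * (u * a i) : ℝ) / (m * n : ℕ)) ((t * (v * a i) : ℝ) / (m * n : ℕ))} ∧
        j ≤ #{i | G ((t * (u * a i) : ℝ) / (m * n : ℕ)) ((t * (v * a i) : ℝ) / (m * n : ℕ)) < 0}) →
      ∃ P : Finset (Fin k), P.card = j ∧ ∃ g : Fin k → Fin k,
        (∀ i ∈ P, g i ∉ P) ∧ (∀ i ∈ P, ∀ l ∈ P, g i = g l → i = l) ∧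
        ∀ i ∈ P, ((m * n : ℕ) : ℤ) ∣ a i + a (g i) := by
  classical
  obtain ⟨D, hD, h⟩ := comb_aux k (k / 2) (by omega)
  refine ⟨D, hD, fun m n u v har hn hm j hj a han ham hcount => ?_⟩
  have h1 : 2 * j ≤ k := by
    obtain ⟨h1, h2⟩ := hcount 1 isCoprime_one_left
    have h3 : ∀ y : Fin k → ℝ, #{i | 0 < y i} + #{i | y i < 0} ≤ k := by
      intro y
      rw [← Finset.card_union_of_disjoint]
      · calc _ ≤ #(Finset.univ : Finset (Fin k)) := Finset.card_le_card (Finset.subset_univ _)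
          _ = k := by simp
      · rw [Finset.disjoint_filter]
        intro i _ h4 h5
        exact lt_asymm h4 h5
    have h4 := h3 fun i => G ((((1 : ℤ) : ℝ) * (u * a i) : ℝ) / (m * n : ℕ))
      ((((1 : ℤ) : ℝ) * (v * a i) : ℝ) / (m * n : ℕ))
    omega
  have h2 : j = k / 2 := by omega
  subst h2
  exact h m n u v har hn hm a han ham hcount

end Pool.Agent.Superell
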