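import Pool.Agent.Superell.Pars

/-!
# Sums of signs bounded by one
-/

set_option autoImplicit false

open MeasureTheory intervalIntegral Finset Filter Topology

namespace Pool.Agent.Superell

variable {ι : Type*}

/-- The sum of the signs. -/
noncomputable def F (p : ℕ) (b c : ι → ℤ) (I : Finset ι) (s : ℕ) (x : ℝ) : ℝ :=
  ∑ i ∈ I, f (b i * x) (s * c i / p)

theorem ni {p s : ℕ} (hp : p.Prime) (hs : 0 < s) (hsp : s < p) {c : ℤ} (hc : ¬ (p : ℤ) ∣ c) :
    NI (s * c / p) := by
  intro z hz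
  have hpR : (p : ℝ) ≠ 0 := by exact_mod_cast hp.pos.ne'
  rw [div_eq_iff hpR] at hz
  have h1 : (s * c : ℤ) = z * p := by exact_mod_cast hz
  have h2 : (p : ℤ) ∣ s * c := ⟨z, by rw [h1]; ring⟩
  rcases (Nat.prime_iff_prime_int.mp hp).dvd_or_dvd h2 with h | h
  · have h3 : p ∣ s := by exact_mod_cast h
    exact absurd (Nat.le_of_dvd hs h3) (not_le.mpr hsp)
  · exact hc h

theorem F_mul (p : ℕ) (b c : ι → ℤ) (I : Finset ι) (s : ℕ) (x : ℝ) (w : ℂ) :
    ((F p b c I s x : ℝ) : ℂ) * w = ∑ i ∈ I, (f (b i * x) (s * c i / p) : ℂ) * w := by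
  rw [F, Complex.ofReal_sum, Finset.sum_mul]

theorem intInt_F (p : ℕ) (b c : ι → ℤ) (I : Finset ι) (s : ℕ) (h : ℝ → ℂ) (hh : Continuous h)
    (u v : ℝ) : IntervalIntegrable (fun x => ((F p b c I s x : ℝ) : ℂ) * h x) volume u v := by
  have h1 := IntervalIntegrable.sum I (f := fun i x => (f (b i * x) (s * c i / p) : ℂ) * h x)
    fun i _ => intInt_term (b i) (s * c i / p) h hh u v
  have h2 : (fun x => ((F p b c I s x : ℝ) : ℂ) * h x) =
      ∑ i ∈ I, fun x => (f (b i * x) (s * c i / p) : ℂ) * h x := by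
    funext x
    rw [F_mul, Finset.sum_apply]
  rw [h2]
  exact h1

theorem int_F (p : ℕ) (b c : ι → ℤ) (I : Finset ι) (s : ℕ) (h : ℝ → ℂ) (hh : Continuous h)
    (u v : ℝ) : ∫ x in u..v, ((F p b c I s x : ℝ) : ℂ) * h x =
      ∑ i ∈ I, ∫ x in u..v, (f (b i * x) (s * c i / p) : ℂ) * h x := by
  simp only [F_mul]
  exact intervalIntegral.integral_finsetSum fun i _ => intInt_term (b i) (s * c i / p) h hh u v

theorem measurable_F (p : ℕ) (b c : ι → ℤ) (I : Finset ι) (s : ℕ) : Measurable (F p b c I s) := by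
  unfold F
  exact Finset.measurable_sum I fun i _ => (measurable_f _).comp (measurable_const_mul _)

theorem mean_F {p : ℕ} {b c : ι → ℤ} {I : Finset ι} {s : ℕ} (hb : ∀ i ∈ I, b i ≠ 0)
    (hy : ∀ i ∈ I, NI (s * c i / p)) :
    ∫ x in (0 : ℝ)..1, ((F p b c I s x : ℝ) : ℂ) * 1 =
      ((∑ i ∈ I, (1 - 2 * Int.fract (s * c i / p : ℝ)) : ℝ) : ℂ) := by
  rw [int_F p b c I s (fun _ => 1) continuous_const, Complex.ofReal_sum]
  refine Finset.sum_congr rfl fun i hi => ?_
  have h1 := mean_term (hy i hi) (hb i hi)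
  simp only [mul_one]
  rw [h1]
  push_cast
  ring

theorem harm_F {p : ℕ} {b c : ι → ℤ} {I : Finset ι} {s : ℕ} {β : ℤ} (hβ : 0 < β)
    (hb : ∀ i ∈ I, β ≤ |b i|) (hy : ∀ i ∈ I, NI (s * c i / p)) :
    ∫ x in (0 : ℝ)..1, ((F p b c I s x : ℝ) : ℂ) * e (β * x) =
      - Q p (fun i => Int.sign (b i)) (fun i => - Int.sign (b i) * c i)
        (I.filter fun i => |b i| = β) s / (Real.pi * Complex.I) := by
  classical
  have hcont : Continuous fun x : ℝ => e (β * x) := continuous_e.comp (continuous_const_mul _)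
  rw [int_F p b c I s (fun x => e (β * x)) hcont, Q, Finset.sum_filter, ← Finset.sum_neg_distrib,
    Finset.sum_div]
  refine Finset.sum_congr rfl fun i hi => ?_
  by_cases h1 : |b i| = β
  · rw [if_pos h1]
    have hb0 : b i ≠ 0 := by
      intro h0
      rw [h0, abs_zero] at h1
      omega
    rcases lt_or_gt_of_ne hb0 with h2 | h2
    · have h3 : b i = -β := by rw [← h1, abs_of_neg h2]; ring
      rw [Int.sign_eq_neg_one_of_neg h2]
      have h4 : NI (-(s * c i / p : ℝ)) := by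
        intro z hz
        exact hy i hi (-z) (by push_cast; linarith)
      have h5 := harm_term_eq h4 hβ.ne'
      have h6 : ∀ x : ℝ, ((f (b i * x) (s * c i / p) : ℝ) : ℂ) * e (β * x) =
          - (((f (β * x) (-(s * c i / p)) : ℝ) : ℂ) * e (β * x)) := by
        intro x
        have h7 : f (b i * x) (s * c i / p) = - f (β * x) (-(s * c i / p)) := by
          rw [← f_neg, neg_neg, h3]
          congr 1
          push_cast
          ring
        rw [h7]
        push_cast
        ring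
      simp only [h6]
      rw [intervalIntegral.integral_neg, h5, neg_neg]
      have h7 : (s * ((-(-1) * c i : ℤ) : ℝ) / p : ℝ) = (s * c i / p : ℝ) := by
        push_cast; ring
      rw [h7]
      push_cast
      ring
    · have h3 : b i = β := by rw [← h1, abs_of_pos h2]
      rw [Int.sign_eq_one_of_pos h2, h3]
      have h5 := harm_term_eq (hy i hi) hβ.ne'
      rw [h5]
      have h7 : (s * ((-1 * c i : ℤ) : ℝ) / p : ℝ) = -(s * c i / p : ℝ) := by
        push_cast; ring
      rw [h7]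
      push_cast
      ring
  · rw [if_neg h1, neg_zero, zero_div]
    exact harm_term_zero _ hβ (lt_of_le_of_ne (hb i hi) (Ne.symm h1))

/-- If all harmonics vanish, the sum is empty. -/
theorem zero_lemma {p : ℕ} (hp : p.Prime) {b c : ι → ℤ} {I : Finset ι} (hb : ∀ i ∈ I, b i ≠ 0)
    (hc : ∀ i ∈ I, ¬ (p : ℤ) ∣ c i)
    (hopp : ∀ i ∈ I, ∀ l ∈ I, ¬ (b i = - b l ∧ (p : ℤ) ∣ c i + c l))
    (hA : ∀ s, 0 < s → s < p → ∀ β : ℤ, 0 < β →
      ∫ x in (0 : ℝ)..1, ((F p b c I s x : ℝ) : ℂ) * e (β * x) = 0) : I = ∅ := by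
  classical
  by_contra hI
  have hne : I.Nonempty := Finset.nonempty_iff_ne_empty.mpr hI
  obtain ⟨i0, hi0, hmin⟩ := Finset.exists_min_image I (fun i => |b i|) hne
  set β := |b i0| with hβdef
  have hβ : 0 < β := abs_pos.mpr (hb i0 hi0)
  set κ : ι → ℤ := fun i => Int.sign (b i) with hκ
  set d : ι → ℤ := fun i => - Int.sign (b i) * c i with hd
  set J := I.filter fun i => |b i| = β with hJ
  have hJne : J.Nonempty := ⟨i0, Finset.mem_filter.mpr ⟨hi0, rfl⟩⟩
  have hJI : ∀ i ∈ J, i ∈ I := fun i hi => (Finset.mem_filter.mp hi).1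
  have hκ1 : ∀ i ∈ J, κ i = 1 ∨ κ i = -1 := by
    intro i hi
    rcases lt_or_gt_of_ne (hb i (hJI i hi)) with h | h
    · exact Or.inr (Int.sign_eq_neg_one_of_neg h)
    · exact Or.inl (Int.sign_eq_one_of_pos h)
  have hbκ : ∀ i ∈ J, b i = κ i * β := by
    intro i hi
    rw [← (Finset.mem_filter.mp hi).2]
    exact (Int.sign_mul_abs (b i)).symm
  have hd0 : ∀ i ∈ J, ¬ (p : ℤ) ∣ d i := by
    intro i hi h
    apply hc i (hJI i hi)
    rcases hκ1 i hi with h1 | h1
    · simp only [hd] at h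
      simp only [hκ] at h1
      rw [h1] at h
      simpa using h
    · simp only [hd] at h
      simp only [hκ] at h1
      rw [h1] at h
      simpa using h
  have hoppJ : ∀ i ∈ J, ∀ l ∈ J, (p : ℤ) ∣ d i - d l → κ i = κ l := by
    intro i hi l hl h
    by_contra hne'
    have h1 : κ i = - κ l := by
      rcases hκ1 i hi with h1 | h1 <;> rcases hκ1 l hl with h2 | h2
      · exact absurd (h1.trans h2.symm) hne'
      · rw [h1, h2]; norm_num
      · rw [h1, h2]
      · exact absurd (h1.trans h2.symm) hne'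
    apply hopp i (hJI i hi) l (hJI l hl)
    refine ⟨by rw [hbκ i hi, hbκ l hl, h1]; ring, ?_⟩
    have h2 : d i - d l = κ l * (c i + c l) := by
      have e1 : d i = - κ i * c i := rfl
      have e2 : d l = - κ l * c l := rfl
      rw [e1, e2, h1]
      ring
    rw [h2] at h
    rcases hκ1 l hl with h3 | h3
    · rw [h3, one_mul] at h; exact h
    · rw [h3] at h
      have h4 : (-1 : ℤ) * (c i + c l) = -(c i + c l) := by ring
      rw [h4] at h
      exact (dvd_neg).mp h
  have hQ : ∀ s ∈ range p, Complex.normSq (Q p κ d J s) = 0 := by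
    intro s hs
    rw [Complex.normSq_eq_zero]
    rcases Nat.eq_zero_or_pos s with h0 | h0
    · subst h0
      simp [Q, e_zero]
    · have h1 := hA s h0 (Finset.mem_range.mp hs) β hβ
      rw [harm_F hβ hmin (fun i hi => ni hp h0 (Finset.mem_range.mp hs) (hc i hi))] at h1
      rw [div_eq_zero_iff] at h1
      rcases h1 with h1 | h1
      · exact neg_eq_zero.mp h1
      · exact absurd h1 pi_I_ne
  have h1 := pars hp.pos κ d J hd0
  rw [Finset.sum_eq_zero hQ] at h1
  have h2 := two_le_Nf hJne hκ1 hoppJ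
  have h3 : (0 : ℝ) < p := by exact_mod_cast hp.pos
  have h4 : (2 : ℝ) ≤ Nf p κ d J := by exact_mod_cast h2
  nlinarith

theorem ae_sign {b : ℤ} (hb : b ≠ 0) {y : ℝ} (hy : NI y) :
    ∀ᵐ x : ℝ, f (b * x) y = 1 ∨ f (b * x) y = -1 := by
  have hbR : (b : ℝ) ≠ 0 := by exact_mod_cast hb
  have hcount : (Set.range (fun z : ℤ => (z : ℝ) / b) ∪
      Set.range (fun z : ℤ => ((z : ℝ) - y) / b)).Countable :=
    (Set.countable_range _).union (Set.countable_range _)
  have h1 := hcount.ae_notMem (volume : Measure ℝ)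
  refine h1.mono fun x hx => ?_
  have h2 : G (b * x) y ≠ 0 := by
    rw [Ne, G_eq_zero]
    rintro (⟨z, hz⟩ | ⟨z, hz⟩ | ⟨z, hz⟩)
    · apply hx
      left
      exact ⟨z, by simp only; rw [← hz]; field_simp⟩
    · exact hy z hz
    · apply hx
      right
      exact ⟨z, by simp only; rw [← hz]; field_simp; ring⟩
  unfold f
  rcases lt_or_gt_of_ne h2 with h | h
  · exact Or.inr (Real.sign_of_neg h)
  · exact Or.inl (Real.sign_of_pos h)

theorem parity (I : Finset ι) (g : ι → ℝ) (hg : ∀ i ∈ I, g i = 1 ∨ g i = -1) :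
    ∃ z : ℤ, ∑ i ∈ I, g i = I.card + 2 * z := by
  classical
  induction I using Finset.induction_on with
  | empty => exact ⟨0, by simp⟩
  | insert i I hi ih =>
    obtain ⟨z, hz⟩ := ih fun l hl => hg l (Finset.mem_insert_of_mem hl)
    rw [Finset.sum_insert hi, Finset.card_insert_of_notMem hi, hz]
    rcases hg i (Finset.mem_insert_self i I) with h | h
    · exact ⟨z, by rw [h]; push_cast; ring⟩
    · exact ⟨z - 1, by rw [h]; push_cast; ring⟩

/-- Extremal functions. -/
theorem int_le {H g : ℝ → ℝ} (hHm : Measurable H) (hH : ∀ᵐ x, |H x| ≤ 1) (hg : Continuous g) :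
    IntervalIntegrable (fun x => H x * g x) volume 0 1 ∧
    ∫ x in (0 : ℝ)..1, H x * g x ≤ ∫ x in (0 : ℝ)..1, |g x| ∧
    ((∫ x in (0 : ℝ)..1, |g x|) = ∫ x in (0 : ℝ)..1, H x * g x →
      ∀ᵐ x, x ∈ Set.Ioc (0 : ℝ) 1 → H x * g x = |g x|) := by
  have i1 : IntervalIntegrable (fun x => |g x|) volume 0 1 := hg.abs.intervalIntegrable 0 1
  have i2 : IntervalIntegrable (fun x => H x * g x) volume 0 1 := by
    refine IntervalIntegrable.mono_fun i1 (hHm.mul hg.measurable).aestronglyMeasurable ?_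
    refine ae_restrict_of_ae (hH.mono fun x hx => ?_)
    change ‖H x * g x‖ ≤ ‖|g x|‖
    rw [norm_mul, Real.norm_eq_abs, Real.norm_eq_abs, Real.norm_eq_abs, abs_abs]
    calc |H x| * |g x| ≤ 1 * |g x| := mul_le_mul_of_nonneg_right hx (abs_nonneg _)
      _ = |g x| := one_mul _
  have hle : ∀ᵐ x, H x * g x ≤ |g x| := by
    refine hH.mono fun x hx => ?_
    calc H x * g x ≤ |H x * g x| := le_abs_self _
      _ = |H x| * |g x| := abs_mul _ _
      _ ≤ 1 * |g x| := mul_le_mul_of_nonneg_right hx (abs_nonneg _)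
      _ = |g x| := one_mul _
  refine ⟨i2, ?_, fun heq => ?_⟩
  · exact intervalIntegral.integral_mono_ae zero_le_one i2 i1 hle
  · have h1 : ∫ x in (0 : ℝ)..1, (|g x| - H x * g x) = 0 := by
      rw [intervalIntegral.integral_sub i1 i2, heq, sub_self]
    have h2 : 0 ≤ᵐ[volume.restrict (Set.Ioc (0 : ℝ) 1)] fun x => |g x| - H x * g x :=
      ae_restrict_of_ae (hle.mono fun x hx => sub_nonneg.mpr hx)
    rw [intervalIntegral.integral_eq_zero_iff_of_le_of_nonneg_ae zero_le_one h2 (i1.sub i2)] at h1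
    rw [EventuallyEq, ae_restrict_iff' measurableSet_Ioc] at h1
    refine h1.mono fun x hx hxm => ?_
    have := hx hxm
    simp only [Pi.zero_apply] at this
    linarith

end Pool.Agent.Superell
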