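import Mathlib

/-!
# Generalized inverses of integral matrices
-/

set_option autoImplicit false

open Finset

namespace Pool.Agent.Superell

theorem exists_ginv_lin {V W : Type*} [AddCommGroup V] [Module ℚ V] [AddCommGroup W] [Module ℚ W]
    (f : V →ₗ[ℚ] W) : ∃ g : W →ₗ[ℚ] V, ∀ v, f (g (f v)) = f v := by
  obtain ⟨s, hs⟩ := f.rangeRestrict.exists_rightInverse_of_surjective f.range_rangeRestrict
  obtain ⟨π, hπ⟩ := (LinearMap.range f).subtype.exists_leftInverse_of_injective
    (LinearMap.range f).ker_subtype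
  refine ⟨s ∘ₗ π, fun v => ?_⟩
  have h1 : π (f v) = f.rangeRestrict v := LinearMap.congr_fun hπ (f.rangeRestrict v)
  have h2 : ∀ w, f.rangeRestrict (s w) = w := fun w => LinearMap.congr_fun hs w
  rw [LinearMap.comp_apply, h1]
  have h3 := h2 (f.rangeRestrict v)
  exact congrArg Subtype.val h3

theorem exists_denom {r k : ℕ} (q : Fin r → Fin k → ℚ) : ∃ (E : ℕ) (S : Fin r → Fin k → ℤ),
    0 < E ∧ ∀ a b, (E : ℚ) * q a b = S a b := by
  classical
  set E : ℕ := ∏ x : Fin r × Fin k, (q x.1 x.2).den with hE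
  have h1 : ∀ a b, ∃ z : ℤ, (E : ℚ) * q a b = z := by
    intro a b
    have h2 : (q a b).den ∣ E := Finset.dvd_prod_of_mem (fun x : Fin r × Fin k => (q x.1 x.2).den)
      (Finset.mem_univ (a, b))
    obtain ⟨c, hc⟩ := h2
    refine ⟨c * (q a b).num, ?_⟩
    rw [hc]
    have h3 : ((q a b).den : ℚ) * q a b = (q a b).num := by
      rw [mul_comm]; exact Rat.mul_den_eq_num (q a b)
    push_cast
    rw [← h3]
    ring
  choose S hS using h1
  exact ⟨E, S, Finset.prod_pos fun x _ => (q x.1 x.2).den_pos, hS⟩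

/-- Integral matrices have generalized inverses up to a denominator. -/
theorem exists_ginv {k r : ℕ} (M : Fin k → Fin r → ℤ) :
    ∃ (E : ℕ) (S : Fin r → Fin k → ℤ), 0 < E ∧
      ∀ i l, ∑ b, (∑ a, M i a * S a b) * M b l = E * M i l := by
  classical
  let f : (Fin r → ℚ) →ₗ[ℚ] (Fin k → ℚ) := Matrix.mulVecLin (Matrix.of fun i a => (M i a : ℚ))
  obtain ⟨g, hg⟩ := exists_ginv_lin f
  obtain ⟨E, S, hE, hS⟩ := exists_denom (fun a b => g (Pi.single b 1) a)
  refine ⟨E, S, hE, fun i l => ?_⟩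
  have hf : ∀ v i, f v i = ∑ a, (M i a : ℚ) * v a := by
    intro v i
    simp [f, Matrix.mulVec, dotProduct]
  have hg' : ∀ w a, g w a = ∑ b, w b * g (Pi.single b 1) a := by
    intro w a
    conv_lhs => rw [← Finset.univ_sum_single w]
    rw [map_sum, Finset.sum_apply]
    refine Finset.sum_congr rfl fun b _ => ?_
    have : (Pi.single b (w b) : Fin k → ℚ) = w b • Pi.single b 1 := by
      rw [← Pi.single_smul, smul_eq_mul, mul_one]
    rw [this, map_smul, Pi.smul_apply, smul_eq_mul]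
  have h1 := congrFun (hg (Pi.single l 1)) i
  have h2 : ∀ b, f (Pi.single l 1) b = M b l := by
    intro b
    rw [hf, Finset.sum_eq_single l (fun a _ ha => by rw [Pi.single_eq_of_ne ha, mul_zero])
      (fun h => absurd (Finset.mem_univ l) h), Pi.single_eq_same, mul_one]
  rw [hf, h2] at h1
  have h3 : ∀ a, (E : ℚ) * g (f (Pi.single l 1)) a = ∑ b, (S a b : ℚ) * M b l := by
    intro a
    rw [hg', Finset.mul_sum]
    refine Finset.sum_congr rfl fun b _ => ?_
    rw [h2, ← hS a b]
    ring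
  have h4 : ((∑ b, (∑ a, M i a * S a b) * M b l : ℤ) : ℚ) = ((E * M i l : ℤ) : ℚ) := by
    push_cast
    rw [← h1, Finset.mul_sum]
    have h5 : ∀ a, (E : ℚ) * ((M i a : ℚ) * g (f (Pi.single l 1)) a) =
        ∑ b, (M i a : ℚ) * S a b * M b l := by
      intro a
      rw [mul_left_comm, h3, Finset.mul_sum]
      exact Finset.sum_congr rfl fun b _ => by ring
    rw [Finset.sum_congr rfl fun a _ => h5 a, Finset.sum_comm]
    refine Finset.sum_congr rfl fun b _ => ?_
    rw [Finset.sum_mul]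
  exact_mod_cast h4

end Pool.Agent.Superell
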