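import Pool.Agent.Superell.Tri

/-!
# Mean values and first harmonics
-/

set_option autoImplicit false

open MeasureTheory intervalIntegral

namespace Pool.Agent.Superell

theorem pi_I_ne : (Real.pi * Complex.I : ℂ) ≠ 0 :=
  mul_ne_zero (by exact_mod_cast Real.pi_pos.ne') Complex.I_ne_zero

/-- `y` is not an integer -/
def NI (y : ℝ) : Prop := ∀ z : ℤ, y ≠ z

theorem NI.fract_pos {y : ℝ} (hy : NI y) : 0 < Int.fract y := by
  refine lt_of_le_of_ne (Int.fract_nonneg y) fun h => ?_
  have h1 := Int.floor_add_fract y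
  rw [← h, add_zero] at h1
  exact hy ⌊y⌋ h1.symm

theorem f_fract (x y : ℝ) : f x y = f x (Int.fract y) := by
  conv_lhs => rw [← Int.fract_add_floor y]
  rw [f_add_int_right]

theorem e_fract (y : ℝ) : e (-Int.fract y) = e (-y) := by
  have h : -Int.fract y = -y + ((⌊y⌋ : ℤ) : ℝ) := by
    have := Int.floor_add_fract y
    linarith
  rw [h, e_add_int]

theorem mean_f {y : ℝ} (hy : NI y) :
    ∫ x in (0 : ℝ)..1, (f x y : ℂ) * 1 = 1 - 2 * ((Int.fract y : ℝ) : ℂ) := by
  have h1 : ∀ x, f x y = f x (Int.fract y) := fun x => f_fract x y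
  simp only [h1]
  rw [int_f_mul hy.fract_pos (Int.fract_lt_one y) (fun _ => 1) continuous_const]
  simp only [intervalIntegral.integral_const, sub_zero, sub_sub_cancel, Complex.real_smul, mul_one]
  push_cast
  ring

theorem harm_f {y : ℝ} (hy : NI y) :
    ∫ x in (0 : ℝ)..1, (f x y : ℂ) * e x = (e (-y) - 1) / (Real.pi * Complex.I) := by
  have h1 : ∀ x, f x y = f x (Int.fract y) := fun x => f_fract x y
  simp only [h1]
  rw [int_f_mul hy.fract_pos (Int.fract_lt_one y) e continuous_e, int_e, int_e]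
  have h2 : e (1 - Int.fract y) = e (-y) := by
    rw [← e_fract y, ← e_add_int (-Int.fract y) 1]
    congr 1
    push_cast
    ring
  have h3 : e 1 = 1 := by
    have := e_int 1
    simpa using this
  rw [h2, h3, e_zero]
  have := pi_I_ne
  have h4 : (2 * Real.pi * Complex.I : ℂ) ≠ 0 := Complex.two_pi_I_ne_zero
  field_simp
  ring

/-- Scaling of integrals of periodic functions. -/
theorem scale {h : ℝ → ℂ} (hper : Function.Periodic h 1)
    (hint : ∀ a b, IntervalIntegrable h volume a b) {b : ℤ} (hb : b ≠ 0) :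
    ∫ x in (0 : ℝ)..1, h (b * x) = ∫ x in (0 : ℝ)..1, h x := by
  have hbR : (b : ℝ) ≠ 0 := by exact_mod_cast hb
  have h1 := intervalIntegral.integral_comp_mul_left (a := 0) (b := 1) h hbR
  rw [h1, mul_zero, mul_one]
  have h2 := hper.intervalIntegral_add_zsmul_eq b 0 hint
  simp only [zero_add, zsmul_eq_mul, mul_one] at h2
  rw [h2, Complex.real_smul]
  push_cast
  rw [← mul_assoc, inv_mul_cancel₀ (by exact_mod_cast hb), one_mul]

theorem shift {h : ℝ → ℂ} (hper : Function.Periodic h 1) (c : ℝ) :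
    ∫ x in (0 : ℝ)..1, h (x + c) = ∫ x in (0 : ℝ)..1, h x := by
  rw [intervalIntegral.integral_comp_add_right]
  have := hper.intervalIntegral_add_eq c 0
  rw [zero_add] at this
  rw [zero_add, add_comm 1 c]
  exact this

theorem periodic_f (y : ℝ) : Function.Periodic (fun x => f x y) 1 := by
  intro x
  have := f_add_int_left x y 1
  simpa using this

theorem periodic_e : Function.Periodic e 1 := by
  intro x
  have := e_add_int x 1
  simpa using this

/-- mean value of a term -/
theorem mean_term {y : ℝ} (hy : NI y) {b : ℤ} (hb : b ≠ 0) :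
    ∫ x in (0 : ℝ)..1, (f (b * x) y : ℂ) = 1 - 2 * ((Int.fract y : ℝ) : ℂ) := by
  have h1 := scale (h := fun x => (f x y : ℂ) * 1) (fun x => by simp [periodic_f y x])
    (fun a b => intInt_f y (fun _ => 1) continuous_const a b) hb
  rw [mean_f hy] at h1
  rw [← h1]
  simp

/-- first harmonic of a term of lowest frequency -/
theorem harm_term_eq {y : ℝ} (hy : NI y) {b : ℤ} (hb : b ≠ 0) :
    ∫ x in (0 : ℝ)..1, (f (b * x) y : ℂ) * e (b * x) =
      (e (-y) - 1) / (Real.pi * Complex.I) := by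
  have h1 := scale (h := fun x => (f x y : ℂ) * e x) (fun x => by
      simp only [periodic_f y x, periodic_e x])
    (fun a b => intInt_f y e continuous_e a b) hb
  rw [harm_f hy] at h1
  exact h1

theorem intInt_term (b : ℤ) (y : ℝ) (h : ℝ → ℂ) (hh : Continuous h) (s t : ℝ) :
    IntervalIntegrable (fun x => (f (b * x) y : ℂ) * h x) volume s t := by
  have h1 : IntervalIntegrable h volume s t := hh.intervalIntegrable s t
  refine IntervalIntegrable.mono_fun h1 ?_ ?_
  · refine ((Complex.measurable_ofReal.comp ((measurable_f y).comp ?_)).mul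
      hh.measurable).aestronglyMeasurable
    exact measurable_const_mul _
  · refine Filter.Eventually.of_forall fun x => ?_
    change ‖(f (b * x) y : ℂ) * h x‖ ≤ ‖h x‖
    rw [norm_mul]
    have h2 : ‖(f (b * x) y : ℂ)‖ ≤ 1 := by
      rw [Complex.norm_real]
      exact abs_f_le _ y
    calc ‖(f (b * x) y : ℂ)‖ * ‖h x‖ ≤ 1 * ‖h x‖ := mul_le_mul_of_nonneg_right h2 (norm_nonneg _)
      _ = ‖h x‖ := one_mul _

/-- first harmonic of a term of higher frequency -/
theorem harm_term_zero (y : ℝ) {b β : ℤ} (hβ : 0 < β) (hβb : β < |b|) :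
    ∫ x in (0 : ℝ)..1, (f (b * x) y : ℂ) * e (β * x) = 0 := by
  have hb : b ≠ 0 := by
    rintro rfl
    rw [abs_zero] at hβb
    omega
  have hbR : (b : ℝ) ≠ 0 := by exact_mod_cast hb
  have hβR : (0 : ℝ) < β := by exact_mod_cast hβ
  set H : ℝ → ℂ := fun x => (f (b * x) y : ℂ) * e (β * x) with hH
  have hper : Function.Periodic H 1 := by
    intro x
    simp only [hH]
    rw [mul_add, mul_one, mul_add, mul_one, f_add_int_left, e_add_int]
  have h1 := shift hper (1 / b)
  have h2 : ∀ x, H (x + 1 / b) = e (β / b) * H x := by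
    intro x
    simp only [hH]
    have e1 : (b : ℝ) * (x + 1 / b) = b * x + ((1 : ℤ) : ℝ) := by
      push_cast; field_simp
    have e2 : (β : ℝ) * (x + 1 / b) = β / b + β * x := by ring
    rw [e1, f_add_int_left, e2, e_add]
    ring
  simp only [h2] at h1
  rw [intervalIntegral.integral_const_mul] at h1
  have h3 : e (β / b) ≠ 1 := by
    rw [Ne, e_eq_one]
    rintro ⟨z, hz⟩
    have hβb' : (β : ℝ) < |(b : ℝ)| := by exact_mod_cast hβb
    have h4 : |(β : ℝ) / b| < 1 := by
      rw [abs_div, abs_of_pos hβR, div_lt_one (abs_pos.mpr hbR)]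
      exact hβb'
    rw [hz] at h4
    have h5 : |z| < 1 := by exact_mod_cast h4
    have h6 : z = 0 := Int.abs_lt_one_iff.mp h5
    rw [h6, Int.cast_zero, div_eq_zero_iff] at hz
    rcases hz with h | h
    · exact hβR.ne' h
    · exact hbR h
  have h4 : (e (β / b) - 1) * ∫ x in (0 : ℝ)..1, H x = 0 := by
    rw [sub_mul, h1, one_mul, sub_self]
  rcases mul_eq_zero.mp h4 with h | h
  · exact absurd (sub_eq_zero.mp h) h3
  · exact h

/-- the integral of `|G|` over a period -/
theorem int_abs_G {y : ℝ} (hy : NI y) :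
    ∫ x in (0 : ℝ)..1, |G x y| = (1 - 2 * Int.fract y) * Real.sin (2 * Real.pi * y) +
      Complex.normSq (1 - e y) / Real.pi := by
  have h0 : ∀ x, |G x y| = (((f x y : ℂ) * 1) * (Real.sin (2 * Real.pi * y) : ℂ) +
      ((f x y : ℂ) * e x) * (1 - e y)).im + (((f x y : ℂ) * 1) * (Real.sin (2 * Real.pi * y) : ℂ)).re
      := by
    intro x
    rw [← f_mul_G, G_im]
    have h1 : (((f x y : ℂ) * 1) * (Real.sin (2 * Real.pi * y) : ℂ)).im = 0 := by
      rw [mul_one, ← Complex.ofReal_mul, Complex.ofReal_im]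
    have h2 : (((f x y : ℂ) * 1) * (Real.sin (2 * Real.pi * y) : ℂ)).re =
        f x y * Real.sin (2 * Real.pi * y) := by
      rw [mul_one, ← Complex.ofReal_mul, Complex.ofReal_re]
    have h3 : (((f x y : ℂ) * e x) * (1 - e y)).im = f x y * (e x * (1 - e y)).im := by
      rw [mul_assoc, Complex.im_ofReal_mul]
    rw [Complex.add_im, h1, h2, h3]
    ring
  have i1 := intInt_f y (fun _ => 1) continuous_const 0 1
  have i2 := intInt_f y e continuous_e 0 1
  have hA : ∫ x in (0 : ℝ)..1, (((f x y : ℂ) * 1) * (Real.sin (2 * Real.pi * y) : ℂ) +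
      ((f x y : ℂ) * e x) * (1 - e y)) = (1 - 2 * ((Int.fract y : ℝ) : ℂ)) *
        (Real.sin (2 * Real.pi * y) : ℂ) + (e (-y) - 1) / (Real.pi * Complex.I) * (1 - e y) := by
    rw [intervalIntegral.integral_add (i1.mul_const _) (i2.mul_const _),
      intervalIntegral.integral_mul_const (r := 1 - e y) (f := fun x => (f x y : ℂ) * e x), harm_f hy]
    congr 1
    rw [← mean_f hy]
    exact intervalIntegral.integral_mul_const _ _
  have hB : ∫ x in (0 : ℝ)..1, ((f x y : ℂ) * 1) * (Real.sin (2 * Real.pi * y) : ℂ) =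
      (1 - 2 * ((Int.fract y : ℝ) : ℂ)) * (Real.sin (2 * Real.pi * y) : ℂ) := by
    rw [← mean_f hy]
    exact intervalIntegral.integral_mul_const _ _
  simp only [h0]
  have i3 : IntervalIntegrable (fun x => ((f x y : ℂ) * 1) * (Real.sin (2 * Real.pi * y) : ℂ) +
      ((f x y : ℂ) * e x) * (1 - e y)) volume 0 1 := (i1.mul_const _).add (i2.mul_const _)
  have i4 : IntervalIntegrable (fun x => ((f x y : ℂ) * 1) * (Real.sin (2 * Real.pi * y) : ℂ))
      volume 0 1 := i1.mul_const _
  have him : ∀ {g : ℝ → ℂ}, IntervalIntegrable g volume 0 1 →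
      (∫ x in (0 : ℝ)..1, (g x).im) = (∫ x in (0 : ℝ)..1, g x).im ∧
      (∫ x in (0 : ℝ)..1, (g x).re) = (∫ x in (0 : ℝ)..1, g x).re := by
    intro g hg
    exact ⟨Complex.imCLM.intervalIntegral_comp_comm hg, Complex.reCLM.intervalIntegral_comp_comm hg⟩
  have i5 : IntervalIntegrable (fun x => (((f x y : ℂ) * 1) * (Real.sin (2 * Real.pi * y) : ℂ) +
      ((f x y : ℂ) * e x) * (1 - e y)).im) volume 0 1 :=
    ⟨Complex.imCLM.integrable_comp i3.1, Complex.imCLM.integrable_comp i3.2⟩
  have i6 : IntervalIntegrable (fun x => (((f x y : ℂ) * 1) *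
      (Real.sin (2 * Real.pi * y) : ℂ)).re) volume 0 1 :=
    ⟨Complex.reCLM.integrable_comp i4.1, Complex.reCLM.integrable_comp i4.2⟩
  rw [intervalIntegral.integral_add i5 i6, (him i3).1, (him i4).2, hA, hB]
  have h7 : (1 - 2 * ((Int.fract y : ℝ) : ℂ)) * (Real.sin (2 * Real.pi * y) : ℂ) =
      (((1 - 2 * Int.fract y) * Real.sin (2 * Real.pi * y) : ℝ) : ℂ) := by push_cast; ring
  have h8 : (e (-y) - 1) / (Real.pi * Complex.I) * (1 - e y) =
      Complex.I * ((Complex.normSq (1 - e y) / Real.pi : ℝ) : ℂ) := by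
    have h9 : ((Complex.normSq (1 - e y) / Real.pi : ℝ) : ℂ) =
        (1 - e y) * (starRingEnd ℂ) (1 - e y) / Real.pi := by
      rw [Complex.mul_conj]
      push_cast
      rfl
    rw [h9, map_sub, map_one, ← e_neg]
    have hpi : (Real.pi : ℂ) ≠ 0 := by exact_mod_cast Real.pi_pos.ne'
    have hI := Complex.I_ne_zero
    have hI2 : Complex.I ^ 2 = -1 := Complex.I_sq
    field_simp
    rw [hI2]
    ring
  rw [h7, h8, Complex.add_im, Complex.ofReal_im, Complex.ofReal_re, Complex.I_mul_im,
    Complex.ofReal_re]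
  ring

end Pool.Agent.Superell
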