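import Pool.Agent.Superell.Extremal

/-!
# The extremal case
-/

set_option autoImplicit false

open MeasureTheory intervalIntegral Finset Filter Topology

namespace Pool.Agent.Superell

variable {ι : Type*}

theorem int_mul_G {H : ℝ → ℝ}
    (hint : ∀ h : ℝ → ℂ, Continuous h → IntervalIntegrable (fun x => (H x : ℂ) * h x) volume 0 1)
    (β φ y : ℝ) : ∫ x in (0 : ℝ)..1, H x * G (β * x + φ) y =
      (∫ x in (0 : ℝ)..1, (H x : ℂ) * 1).re * Real.sin (2 * Real.pi * y) +
      ((∫ x in (0 : ℝ)..1, (H x : ℂ) * e (β * x)) * (e φ * (1 - e y))).im := by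
  have hcont : Continuous fun x : ℝ => e (β * x) := continuous_e.comp (continuous_const_mul _)
  have i1 := hint (fun _ => 1) continuous_const
  have i2 := hint (fun x => e (β * x)) hcont
  have i3 : IntervalIntegrable (fun x => ((H x : ℂ) * 1) * (Real.sin (2 * Real.pi * y) : ℂ))
    volume 0 1 := i1.mul_const _
  have i4 : IntervalIntegrable (fun x => ((H x : ℂ) * e (β * x)) * (e φ * (1 - e y)))
    volume 0 1 := i2.mul_const _
  have h0 : ∀ x, H x * G (β * x + φ) y = (((H x : ℂ) * 1) * (Real.sin (2 * Real.pi * y) : ℂ)).re +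
      (((H x : ℂ) * e (β * x)) * (e φ * (1 - e y))).im := by
    intro x
    rw [G_im]
    have h2 : (((H x : ℂ) * 1) * (Real.sin (2 * Real.pi * y) : ℂ)).re =
        H x * Real.sin (2 * Real.pi * y) := by
      rw [mul_one, ← Complex.ofReal_mul, Complex.ofReal_re]
    have h3 : (((H x : ℂ) * e (β * x)) * (e φ * (1 - e y))).im =
        H x * (e (β * x + φ) * (1 - e y)).im := by
      rw [mul_assoc, ← mul_assoc (e (β * x)), ← e_add, Complex.im_ofReal_mul]
    rw [h2, h3]
    ring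
  simp only [h0]
  have i5 : IntervalIntegrable (fun x => (((H x : ℂ) * 1) *
      (Real.sin (2 * Real.pi * y) : ℂ)).re) volume 0 1 :=
    ⟨Complex.reCLM.integrable_comp i3.1, Complex.reCLM.integrable_comp i3.2⟩
  have i6 : IntervalIntegrable (fun x => (((H x : ℂ) * e (β * x)) *
      (e φ * (1 - e y))).im) volume 0 1 :=
    ⟨Complex.imCLM.integrable_comp i4.1, Complex.imCLM.integrable_comp i4.2⟩
  have e1 : (∫ x in (0 : ℝ)..1, (((H x : ℂ) * 1) * (Real.sin (2 * Real.pi * y) : ℂ)).re) =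
      (∫ x in (0 : ℝ)..1, ((H x : ℂ) * 1) * (Real.sin (2 * Real.pi * y) : ℂ)).re :=
    Complex.reCLM.intervalIntegral_comp_comm i3
  have e2 : (∫ x in (0 : ℝ)..1, (((H x : ℂ) * e (β * x)) * (e φ * (1 - e y))).im) =
      (∫ x in (0 : ℝ)..1, ((H x : ℂ) * e (β * x)) * (e φ * (1 - e y))).im :=
    Complex.imCLM.intervalIntegral_comp_comm i4
  have e3 : (∫ x in (0 : ℝ)..1, ((H x : ℂ) * 1) * (Real.sin (2 * Real.pi * y) : ℂ)) =
      (∫ x in (0 : ℝ)..1, ((H x : ℂ) * 1)) * (Real.sin (2 * Real.pi * y) : ℂ) :=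
    intervalIntegral.integral_mul_const _ _
  have e4 : (∫ x in (0 : ℝ)..1, ((H x : ℂ) * e (β * x)) * (e φ * (1 - e y))) =
      (∫ x in (0 : ℝ)..1, ((H x : ℂ) * e (β * x))) * (e φ * (1 - e y)) :=
    intervalIntegral.integral_mul_const _ _
  rw [intervalIntegral.integral_add i5 i6, e1, e2, e3, e4]
  congr 1
  rw [Complex.mul_re, Complex.ofReal_re, Complex.ofReal_im, mul_zero, sub_zero]

theorem int_abs_G_affine {y : ℝ} (hy : NI y) {β : ℤ} (hβ : β ≠ 0) (φ : ℝ) :
    ∫ x in (0 : ℝ)..1, |G (β * x + φ) y| = (1 - 2 * Int.fract y) * Real.sin (2 * Real.pi * y) +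
      Complex.normSq (1 - e y) / Real.pi := by
  rw [← int_abs_G hy]
  have hcont : Continuous fun x : ℝ => ((|G x y| : ℝ) : ℂ) :=
    Complex.continuous_ofReal.comp (continuous_G_left y).abs
  have hcont' : Continuous fun x : ℝ => ((|G (x + φ) y| : ℝ) : ℂ) :=
    hcont.comp (continuous_add_const φ)
  have hper : Function.Periodic (fun x : ℝ => ((|G x y| : ℝ) : ℂ)) 1 := by
    intro x
    have := G_add_int_left x y 1
    rw [Int.cast_one] at this
    simp only [this]
  have hper' : Function.Periodic (fun x : ℝ => ((|G (x + φ) y| : ℝ) : ℂ)) 1 := by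
    intro x
    have := G_add_int_left (x + φ) y 1
    rw [Int.cast_one, add_right_comm] at this
    simp only [this]
  have h1 := scale hper' (fun a b => hcont'.intervalIntegrable a b) hβ
  have h2 := shift hper φ
  rw [h2] at h1
  simp only [intervalIntegral.integral_ofReal] at h1
  exact_mod_cast h1

theorem exists_phase (z : ℂ) : ∃ φ : ℝ, e φ * z = (‖z‖ : ℂ) := by
  refine ⟨-(Complex.arg z) / (2 * Real.pi), ?_⟩
  have h1 := Complex.norm_mul_exp_arg_mul_I z
  have hpi : (Real.pi : ℂ) ≠ 0 := by exact_mod_cast Real.pi_pos.ne'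
  have h2 : (2 * Real.pi * ((-(Complex.arg z) / (2 * Real.pi) : ℝ) : ℂ) * Complex.I +
      (Complex.arg z : ℂ) * Complex.I : ℂ) = 0 := by
    push_cast
    field_simp
    ring
  calc e (-(Complex.arg z) / (2 * Real.pi)) * z =
      e (-(Complex.arg z) / (2 * Real.pi)) *
        ((‖z‖ : ℂ) * Complex.exp ((Complex.arg z : ℂ) * Complex.I)) := by rw [h1]
    _ = (‖z‖ : ℂ) * Complex.exp (2 * Real.pi * ((-(Complex.arg z) / (2 * Real.pi) : ℝ) : ℂ) *
      Complex.I + (Complex.arg z : ℂ) * Complex.I) := by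
        rw [Complex.exp_add, e]; ring
    _ = (‖z‖ : ℂ) := by rw [h2, Complex.exp_zero, mul_one]

/-- The mean value is determined. -/
theorem mean_value {μ y : ℝ} {z : ℤ} (hμ : |μ| ≤ 1) (h : μ = 1 - 2 * Int.fract y + 2 * z)
    (hy : NI y) : μ = 1 - 2 * Int.fract y := by
  have h1 := hy.fract_pos
  have h2 := Int.fract_lt_one y
  obtain ⟨h3, h4⟩ := abs_le.mp hμ
  have h5 : (z : ℝ) < 1 := by linarith
  have h6 : (-1 : ℝ) < z := by linarith
  have h7 : z < 1 := by exact_mod_cast h5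
  have h8 : -1 < z := by exact_mod_cast h6
  have h9 : z = 0 := by omega
  rw [h, h9]
  simp

/-- The bound for the first harmonic. -/
theorem bound {H : ℝ → ℝ} (hHm : Measurable H) (hH : ∀ᵐ x, |H x| ≤ 1)
    (hint : ∀ h : ℝ → ℂ, Continuous h → IntervalIntegrable (fun x => (H x : ℂ) * h x) volume 0 1)
    {y : ℝ} (hy : NI y) (hmean : ∫ x in (0 : ℝ)..1, (H x : ℂ) * 1 = ((1 - 2 * Int.fract y : ℝ) : ℂ))
    {β : ℤ} (hβ : β ≠ 0) {q : ℂ}
    (hq : ∫ x in (0 : ℝ)..1, (H x : ℂ) * e (β * x) = - q / (Real.pi * Complex.I)) :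
    Complex.normSq q ≤ Complex.normSq (1 - e y) ∧
    (Complex.normSq q = Complex.normSq (1 - e y) → ∃ φ : ℝ, ∀ᵐ x, x ∈ Set.Ioc (0 : ℝ) 1 →
      H x * G (β * x + φ) y = |G (β * x + φ) y|) := by
  obtain ⟨φ, hφ⟩ := exists_phase ((1 - e y) * q)
  have hpi := Real.pi_pos
  have hpiC : (Real.pi : ℂ) ≠ 0 := by exact_mod_cast hpi.ne'
  have hcont : Continuous fun x : ℝ => G (β * x + φ) y :=
    (continuous_G_left y).comp (by fun_prop)
  obtain ⟨-, h1, h2⟩ := int_le hHm hH hcont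
  have h3 := int_mul_G hint β φ y
  have h4 : (- q / (Real.pi * Complex.I)) * (e φ * (1 - e y)) =
      Complex.I * ((‖(1 - e y) * q‖ / Real.pi : ℝ) : ℂ) := by
    have h5 : ((‖(1 - e y) * q‖ / Real.pi : ℝ) : ℂ) = e φ * ((1 - e y) * q) / Real.pi := by
      rw [hφ]; push_cast; rfl
    rw [h5]
    have hI := Complex.I_ne_zero
    have hI2 : Complex.I ^ 2 = -1 := Complex.I_sq
    field_simp
    rw [hI2]
    ring
  rw [hmean, hq, Complex.ofReal_re, h4, Complex.I_mul_im, Complex.ofReal_re] at h3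
  rw [h3, int_abs_G_affine hy hβ φ] at h1
  have h5 : ‖(1 - e y) * q‖ / Real.pi ≤ Complex.normSq (1 - e y) / Real.pi := by linarith
  rw [div_le_div_iff_of_pos_right hpi, Complex.normSq_eq_norm_sq, norm_mul, pow_two] at h5
  have h6 : 0 < ‖1 - e y‖ := by
    rw [norm_pos_iff, sub_ne_zero]
    intro h
    obtain ⟨z, hz⟩ := e_eq_one.mp h.symm
    exact hy z hz
  have h7 : ‖q‖ ≤ ‖1 - e y‖ := le_of_mul_le_mul_left h5 h6
  refine ⟨?_, fun heq => ⟨φ, h2 ?_⟩⟩
  · rw [Complex.normSq_eq_norm_sq, Complex.normSq_eq_norm_sq]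
    exact pow_le_pow_left₀ (norm_nonneg _) h7 2
  · rw [h3, int_abs_G_affine hy hβ φ]
    congr 1
    congr 1
    rw [Complex.normSq_eq_norm_sq, Complex.normSq_eq_norm_sq] at heq
    have h8 : ‖q‖ = ‖1 - e y‖ := by
      have h9 := congrArg Real.sqrt heq
      rwa [Real.sqrt_sq (norm_nonneg _), Real.sqrt_sq (norm_nonneg _)] at h9
    rw [norm_mul, h8, Complex.normSq_eq_norm_sq, pow_two]

/-- The signs near zero. -/
theorem sign_right {b : ℤ} (hb : b ≠ 0) {y : ℝ} (hy : NI y) :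
    ∀ᶠ x : ℝ in 𝓝[>] 0, f (b * x) y = Int.sign b := by
  have hpi := Real.pi_pos
  have hsy : Real.sin (Real.pi * y) ≠ 0 := by
    intro h
    obtain ⟨z, hz⟩ := sin_pi_int.mp h
    exact hy z hz
  have h1 : ∀ᶠ x : ℝ in 𝓝 0, 0 < Real.sin (Real.pi * y) * Real.sin (Real.pi * (b * x + y)) := by
    have hc : ContinuousAt (fun x : ℝ => Real.sin (Real.pi * y) *
        Real.sin (Real.pi * (b * x + y))) 0 := by fun_prop
    refine hc.eventually (lt_mem_nhds ?_)
    simp only [mul_zero, zero_add]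
    exact mul_self_pos.mpr hsy
  have hbR : (b : ℝ) ≠ 0 := by exact_mod_cast hb
  have habs : 0 < |(b : ℝ)| := abs_pos.mpr hbR
  have h2 : ∀ᶠ x : ℝ in 𝓝[>] 0, x ∈ Set.Ioo (0 : ℝ) (1 / |(b : ℝ)|) :=
    Ioo_mem_nhdsGT (by positivity)
  filter_upwards [h2, h1.filter_mono nhdsWithin_le_nhds] with x hx hx1
  have hx0 := hx.1
  have hx2 : |(b : ℝ)| * x < 1 := by
    have := hx.2
    rwa [lt_div_iff₀ habs, mul_comm] at this
  have hG : G (b * x) y = 4 * Real.sin (Real.pi * (b * x)) *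
      (Real.sin (Real.pi * y) * Real.sin (Real.pi * (b * x + y))) := by
    rw [G_eq]; ring
  unfold f
  rw [hG]
  rcases lt_or_gt_of_ne hb with h | h
  · have hb' : (b : ℝ) < 0 := by exact_mod_cast h
    rw [abs_of_neg hb'] at hx2
    have h3 : 0 < Real.sin (Real.pi * (-b * x)) :=
      Real.sin_pos_of_pos_of_lt_pi (mul_pos hpi (mul_pos (by linarith) hx0)) (by nlinarith)
    have h4 : Real.sin (Real.pi * (b * x)) = - Real.sin (Real.pi * (-b * x)) := by
      rw [← Real.sin_neg]; congr 1; ring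
    rw [h4, Int.sign_eq_neg_one_of_neg h, Real.sign_of_neg]
    · norm_num
    · nlinarith [mul_pos h3 hx1]
  · have hb' : (0 : ℝ) < b := by exact_mod_cast h
    rw [abs_of_pos hb'] at hx2
    have h3 : 0 < Real.sin (Real.pi * (b * x)) :=
      Real.sin_pos_of_pos_of_lt_pi (mul_pos hpi (mul_pos hb' hx0)) (by nlinarith)
    rw [Int.sign_eq_one_of_pos h, Real.sign_of_pos]
    · norm_num
    · nlinarith [mul_pos h3 hx1]

theorem F_right {p : ℕ} {b c : ι → ℤ} {I : Finset ι} {s : ℕ} (hb : ∀ i ∈ I, b i ≠ 0)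
    (hy : ∀ i ∈ I, NI (s * c i / p)) :
    ∀ᶠ x : ℝ in 𝓝[>] 0, F p b c I s x = (∑ i ∈ I, Int.sign (b i) : ℤ) ∧
      F p b c I s (1 - x) = - (∑ i ∈ I, Int.sign (b i) : ℤ) := by
  have h1 : ∀ᶠ x : ℝ in 𝓝[>] 0, ∀ i ∈ I, f (b i * x) (s * c i / p) = Int.sign (b i) :=
    (Filter.eventually_all_finset I).mpr fun i hi => sign_right (hb i hi) (hy i hi)
  have h2 : ∀ᶠ x : ℝ in 𝓝[>] 0, ∀ i ∈ I, f (b i * (1 - x)) (s * c i / p) =
      - Int.sign (b i) := by
    refine (Filter.eventually_all_finset I).mpr fun i hi => ?_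
    refine (sign_right (neg_ne_zero.mpr (hb i hi)) (hy i hi)).mono fun x hx => ?_
    rw [Int.sign_neg] at hx
    have h3 : (b i : ℝ) * (1 - x) = ((-b i : ℤ) : ℝ) * x + (b i : ℤ) := by push_cast; ring
    rw [h3, f_add_int_left, hx]
    push_cast
    rfl
  filter_upwards [h1, h2] with x hx1 hx2
  unfold F
  rw [Finset.sum_congr rfl hx1, Finset.sum_congr rfl hx2]
  push_cast
  rw [Finset.sum_neg_distrib]
  exact ⟨rfl, rfl⟩

theorem ae_right {P Q : ℝ → Prop} (h : ∀ᵐ x, P x) (hQ : ∀ᶠ x : ℝ in 𝓝[>] 0, Q x) :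
    ∃ x, 0 < x ∧ x < 1 ∧ P x ∧ Q x := by
  obtain ⟨δ, hδ, hδQ⟩ := mem_nhdsGT_iff_exists_Ioo_subset.mp hQ
  have hd : Dense {x | P x} := MeasureTheory.Measure.dense_of_ae h
  obtain ⟨x, hx, hx1⟩ := hd.exists_between (show (0 : ℝ) < min δ 1 from lt_min hδ one_pos)
  exact ⟨x, hx1.1, hx1.2.trans_le (min_le_right _ _), hx,
    hδQ ⟨hx1.1, hx1.2.trans_le (min_le_left _ _)⟩⟩

theorem ae_left {P Q : ℝ → Prop} (h : ∀ᵐ x, P x) (hQ : ∀ᶠ x : ℝ in 𝓝[>] 0, Q x) :
    ∃ x, 0 < x ∧ x < 1 ∧ P (1 - x) ∧ Q x := by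
  obtain ⟨δ, hδ, hδQ⟩ := mem_nhdsGT_iff_exists_Ioo_subset.mp hQ
  have hd : Dense {x | P x} := MeasureTheory.Measure.dense_of_ae h
  have hδ1 : (0 : ℝ) < min δ 1 := lt_min hδ one_pos
  obtain ⟨x, hx, hx1⟩ := hd.exists_between (show 1 - min δ 1 < (1 : ℝ) by linarith)
  have h1 : 1 - x < min δ 1 := by linarith [hx1.1]
  refine ⟨1 - x, by linarith [hx1.2], h1.trans_le (min_le_right _ _), ?_,
    hδQ ⟨by linarith [hx1.2], h1.trans_le (min_le_left _ _)⟩⟩
  rw [sub_sub_cancel]
  exact hx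

/-- The jump at zero determines the extremal function. -/
theorem jump {H : ℝ → ℝ} {ε : ℤ} (hε : ε = 1 ∨ ε = -1)
    (hr : ∀ᶠ x : ℝ in 𝓝[>] 0, H x = ε ∧ H (1 - x) = -ε)
    {y : ℝ} (hy : NI y) {β : ℤ} (hβ : 0 < β) {φ : ℝ}
    (h : ∀ᵐ x, x ∈ Set.Ioc (0 : ℝ) 1 → H x * G (β * x + φ) y = |G (β * x + φ) y|) :
    ∀ᵐ x, x ∈ Set.Ioc (0 : ℝ) 1 → H x = f (((ε * β : ℤ) : ℝ) * x) y := by
  have hG0 : G φ y = 0 := by
    by_contra hne
    have hc1 : ∀ᶠ x : ℝ in 𝓝[>] 0, 0 < G (β * x + φ) y * G φ y := by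
      have hc : ContinuousAt (fun x : ℝ => G (β * x + φ) y * G φ y) 0 :=
        (((continuous_G_left y).comp (by fun_prop : Continuous fun x : ℝ => β * x + φ)).mul
          continuous_const).continuousAt
      refine (hc.eventually (lt_mem_nhds ?_)).filter_mono nhdsWithin_le_nhds
      simp only [mul_zero, zero_add]
      exact mul_self_pos.mpr hne
    have hc2 : ∀ᶠ x : ℝ in 𝓝[>] 0, 0 < G (β * (1 - x) + φ) y * G φ y := by
      have hc : ContinuousAt (fun x : ℝ => G (-β * x + φ) y * G φ y) 0 :=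
        (((continuous_G_left y).comp (by fun_prop : Continuous fun x : ℝ => -β * x + φ)).mul
          continuous_const).continuousAt
      have h4 : 0 < G (-β * 0 + φ) y * G φ y := by
        simp only [mul_zero, zero_add]
        exact mul_self_pos.mpr hne
      refine ((hc.eventually (lt_mem_nhds h4)).filter_mono nhdsWithin_le_nhds).mono fun x hx => ?_
      have h3 : (β : ℝ) * (1 - x) + φ = (-β * x + φ) + β := by ring
      rw [h3, G_add_int_left]
      exact hx
    obtain ⟨x1, hx10, hx11, hx12, hx13, hx14, -⟩ := ae_right h (hc1.and hr)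
    obtain ⟨x2, hx20, hx21, hx22, hx23, -, hx24⟩ := ae_left h (hc2.and hr)
    have e1 := hx12 ⟨hx10, hx11.le⟩
    have e2 := hx22 ⟨by linarith, by linarith⟩
    rw [hx14] at e1
    rw [hx24] at e2
    have e3 : 0 < |G (β * x1 + φ) y| := abs_pos.mpr (left_ne_zero_of_mul hx13.ne')
    have e4 : 0 < |G (β * (1 - x2) + φ) y| := abs_pos.mpr (left_ne_zero_of_mul hx23.ne')
    rw [← e1] at e3
    rw [← e2] at e4
    rcases lt_or_gt_of_ne hne with hn | hn
    · have g1 : G (β * x1 + φ) y < 0 := by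
        by_contra hcon
        exact absurd hx13 (not_lt.mpr (mul_nonpos_of_nonneg_of_nonpos (not_lt.mp hcon) hn.le))
      have g2 : G (β * (1 - x2) + φ) y < 0 := by
        by_contra hcon
        exact absurd hx23 (not_lt.mpr (mul_nonpos_of_nonneg_of_nonpos (not_lt.mp hcon) hn.le))
      rcases hε with rfl | rfl
      · push_cast at e3; linarith
      · push_cast at e4; linarith
    · have g1 : 0 < G (β * x1 + φ) y := by
        by_contra hcon
        exact absurd hx13 (not_lt.mpr (mul_nonpos_of_nonpos_of_nonneg (not_lt.mp hcon) hn.le))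
      have g2 : 0 < G (β * (1 - x2) + φ) y := by
        by_contra hcon
        exact absurd hx23 (not_lt.mpr (mul_nonpos_of_nonpos_of_nonneg (not_lt.mp hcon) hn.le))
      rcases hε with rfl | rfl
      · push_cast at e4; linarith
      · push_cast at e3; linarith
  have hGe : ∀ x : ℝ, G (β * x + φ) y = G (((ε * β : ℤ) : ℝ) * x) y := by
    rcases G_eq_zero.mp hG0 with ⟨z, hz⟩ | ⟨z, hz⟩ | ⟨z, hz⟩
    · have h1 : ∀ x : ℝ, G (β * x + φ) y = G (β * x) y := by
        intro x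
        rw [hz, G_add_int_left]
      obtain ⟨x, hx0, hx1, hx2, hx3, hx4, -⟩ := ae_right h ((sign_right hβ.ne' hy).and hr)
      have e1 := hx2 ⟨hx0, hx1.le⟩
      rw [hx4, h1] at e1
      rw [Int.sign_eq_one_of_pos hβ] at hx3
      have e2 : 0 < G (β * x) y := by
        by_contra hcon
        rcases (not_lt.mp hcon).lt_or_eq with h | h
        · unfold f at hx3
          rw [Real.sign_of_neg h] at hx3
          norm_num at hx3
        · unfold f at hx3
          rw [h] at hx3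
          simp at hx3
      rw [abs_of_pos e2] at e1
      have e3 : (ε : ℝ) = 1 := by
        have := mul_right_cancel₀ e2.ne' (e1.trans (one_mul _).symm)
        exact this
      have e4 : ε = 1 := by exact_mod_cast e3
      intro x'
      rw [h1, e4, one_mul]
    · exact absurd hz (hy z)
    · have h1 : ∀ x : ℝ, G (β * x + φ) y = G (((-β : ℤ) : ℝ) * x) y := by
        intro x
        have h2 : (β : ℝ) * x + φ = (β * x - y) + z := by rw [← hz]; ring
        rw [h2, G_add_int_left, G_sub]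
        congr 1
        push_cast
        ring
      obtain ⟨x, hx0, hx1, hx2, hx3, hx4, -⟩ := ae_right h
        ((sign_right (neg_ne_zero.mpr hβ.ne') hy).and hr)
      have e1 := hx2 ⟨hx0, hx1.le⟩
      rw [hx4, h1] at e1
      rw [Int.sign_neg, Int.sign_eq_one_of_pos hβ] at hx3
      have e2 : G (((-β : ℤ) : ℝ) * x) y < 0 := by
        by_contra hcon
        rcases (not_lt.mp hcon).lt_or_eq with h | h
        · unfold f at hx3
          rw [Real.sign_of_pos h] at hx3
          norm_num at hx3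
        · unfold f at hx3
          rw [← h] at hx3
          simp at hx3
      rw [abs_of_neg e2] at e1
      have e3 : (ε : ℝ) = -1 := by
        have := mul_right_cancel₀ e2.ne (e1.trans (neg_one_mul _).symm)
        exact this
      have e4 : ε = -1 := by exact_mod_cast e3
      intro x'
      rw [h1, e4, neg_one_mul]
  have hεβ : ε * β ≠ 0 := by
    rcases hε with rfl | rfl <;> omega
  filter_upwards [h, ae_sign hεβ hy] with x hx1 hx2 hxm
  have e1 := hx1 hxm
  rw [hGe, ← f_mul_G] at e1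
  have e2 : G (((ε * β : ℤ) : ℝ) * x) y ≠ 0 := by
    intro h0
    unfold f at hx2
    rw [h0] at hx2
    rcases hx2 with h | h <;> simp at h
  exact mul_right_cancel₀ e2 e1

end Pool.Agent.Superell
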