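import Pool.Agent.Superell.CardOne

/-!
# Opposite pairs
-/

set_option autoImplicit false

open MeasureTheory Finset Filter Topology

namespace Pool.Agent.Superell

variable {ι : Type*}

/-- the number of positive terms -/
noncomputable def npos (p : ℕ) (b c : ι → ℤ) (I : Finset ι) (s : ℕ) (x : ℝ) : ℕ :=
  #{i ∈ I | 0 < G (b i * x) (s * c i / p)}

/-- the number of negative terms -/
noncomputable def nneg (p : ℕ) (b c : ι → ℤ) (I : Finset ι) (s : ℕ) (x : ℝ) : ℕ :=
  #{i ∈ I | G (b i * x) (s * c i / p) < 0}

theorem F_eq (p : ℕ) (b c : ι → ℤ) (I : Finset ι) (s : ℕ) (x : ℝ) :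
    F p b c I s x = npos p b c I s x - nneg p b c I s x := by
  unfold F npos nneg
  rw [Finset.card_filter, Finset.card_filter]
  push_cast
  rw [← Finset.sum_sub_distrib]
  refine Finset.sum_congr rfl fun i _ => ?_
  unfold f
  rcases lt_trichotomy (G (b i * x) (s * c i / p)) 0 with h | h | h
  · rw [Real.sign_of_neg h, if_neg (not_lt.mpr h.le), if_pos h]
    norm_num
  · rw [h]
    simp
  · rw [Real.sign_of_pos h, if_pos h, if_neg (not_lt.mpr h.le)]
    norm_num

theorem npos_add_nneg_le (p : ℕ) (b c : ι → ℤ) (I : Finset ι) (s : ℕ) (x : ℝ) :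
    npos p b c I s x + nneg p b c I s x ≤ I.card := by
  classical
  unfold npos nneg
  rw [← Finset.card_union_of_disjoint]
  · exact Finset.card_le_card (Finset.union_subset (Finset.filter_subset _ _)
      (Finset.filter_subset _ _))
  · rw [Finset.disjoint_filter]
    intro i _ h1 h2
    exact lt_asymm h1 h2

theorem f_ne {x y : ℝ} (h : f x y = 1 ∨ f x y = -1) : G x y ≠ 0 := by
  intro h0
  unfold f at h
  rw [h0] at h
  rcases h with h | h <;> simp at h

theorem G_opp {p : ℕ} (hp : 0 < p) {b c b' c' : ℤ} (hb : b = -b') (hc : (p : ℤ) ∣ c + c') (s : ℕ)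
    (x : ℝ) : G (b' * x) (s * c' / p) = - G (b * x) (s * c / p) := by
  obtain ⟨k, hk⟩ := hc
  have hpR : (p : ℝ) ≠ 0 := by exact_mod_cast hp.ne'
  have h5 : (c' : ℝ) = -c + p * k := by
    have : c' = -c + p * k := by linarith
    exact_mod_cast this
  have h4 : (s * c' / p : ℝ) = -(s * c / p) + ((s * k : ℤ) : ℝ) := by
    rw [h5]
    push_cast
    field_simp
  rw [h4, G_add_int_right, hb, ← G_neg]
  congr 1
  push_cast
  ring

/-- Every family of at most `2 j + 1` signs such that almost always at least `j` of them are
positive and at least `j` are negative contains `j` disjoint opposite pairs. -/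
theorem pairs {p : ℕ} (hp : p.Prime) {b c : ι → ℤ} : ∀ (j : ℕ) (I : Finset ι),
    (∀ i ∈ I, b i ≠ 0) → (∀ i ∈ I, ¬ (p : ℤ) ∣ c i) → I.card ≤ 2 * j + 1 →
    (∀ s, 0 < s → s < p → ∀ᵐ x : ℝ, j ≤ npos p b c I s x ∧ j ≤ nneg p b c I s x) →
    ∃ P : Finset ι, P ⊆ I ∧ P.card = j ∧ ∃ g : ι → ι, (∀ i ∈ P, g i ∈ I ∧ g i ∉ P) ∧
      (∀ i ∈ P, ∀ l ∈ P, g i = g l → i = l) ∧
      ∀ i ∈ P, b i = - b (g i) ∧ (p : ℤ) ∣ c i + c (g i) := by
  classical
  intro j
  induction j with
  | zero =>
    intro I _ _ _ _
    exact ⟨∅, Finset.empty_subset _, rfl, id, by simp, by simp, by simp⟩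
  | succ j ih =>
    intro I hb hc hcard hcount
    by_cases hopp : ∃ i ∈ I, ∃ l ∈ I, b i = - b l ∧ (p : ℤ) ∣ c i + c l
    · obtain ⟨i, hi, l, hl, hbil, hcil⟩ := hopp
      have hil : i ≠ l := by
        rintro rfl
        have := hb i hi
        omega
      have hli : l ∈ I.erase i := Finset.mem_erase.mpr ⟨hil.symm, hl⟩
      set I' := (I.erase i).erase l with hI'
      have hI'I : ∀ x ∈ I', x ∈ I := fun x hx =>
        Finset.mem_of_mem_erase (Finset.mem_of_mem_erase hx)
      have hiI' : i ∉ I' := fun h => (Finset.mem_erase.mp (Finset.mem_of_mem_erase h)).1 rfl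
      have hlI' : l ∉ I' := fun h => (Finset.mem_erase.mp h).1 rfl
      have hcard' : I'.card + 2 = I.card := by
        have h1 := Finset.card_erase_add_one hi
        have h2 := Finset.card_erase_add_one hli
        rw [← hI'] at h2
        omega
      obtain ⟨P, hP1, hP2, g, hg1, hg2, hg3⟩ := ih I' (fun x hx => hb x (hI'I x hx))
        (fun x hx => hc x (hI'I x hx)) (by omega) (by
          intro s h0 h1
          have hy : NI (s * c i / p) := ni hp h0 h1 (hc i hi)
          filter_upwards [hcount s h0 h1, ae_sign (hb i hi) hy] with x hx hx1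
          have hG := f_ne hx1
          have hGo := G_opp hp.pos hbil hcil s x
          have hsum : ∀ (R : ι → Prop) [DecidablePred R],
              #{a ∈ I | R a} = #{a ∈ I' | R a} + (if R i then 1 else 0) + (if R l then 1 else 0) := by
            intro R _
            have e1 : I = insert i (insert l I') := by
              rw [hI', Finset.insert_erase hli, Finset.insert_erase hi]
            have e2 : i ∉ insert l I' := by
              rw [Finset.mem_insert]
              rintro (h | h)
              · exact hil h
              · exact hiI' h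
            rw [Finset.card_filter, Finset.card_filter]
            conv_lhs => rw [e1]
            rw [Finset.sum_insert e2, Finset.sum_insert hlI']
            omega
          unfold npos nneg at hx ⊢
          rw [hsum, hsum, hGo] at hx
          rcases lt_or_gt_of_ne hG with h | h
          · have a1 : ¬ 0 < G (b i * x) (s * c i / p) := not_lt.mpr h.le
            have a2 : 0 < - G (b i * x) (s * c i / p) := by linarith
            have a3 : ¬ - G (b i * x) (s * c i / p) < 0 := not_lt.mpr a2.le
            rw [if_neg a1, if_pos a2, if_pos h, if_neg a3] at hx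
            omega
          · have a1 : ¬ G (b i * x) (s * c i / p) < 0 := not_lt.mpr h.le
            have a2 : - G (b i * x) (s * c i / p) < 0 := by linarith
            have a3 : ¬ 0 < - G (b i * x) (s * c i / p) := not_lt.mpr a2.le
            rw [if_neg a1, if_pos a2, if_pos h, if_neg a3] at hx
            omega)
      have hiP : i ∉ P := fun h => hiI' (hP1 h)
      have hlP : l ∉ P := fun h => hlI' (hP1 h)
      have hu : ∀ x ∈ P, Function.update g i l x = g x := by
        intro x hx
        rw [Function.update_of_ne]
        rintro rfl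
        exact hiP hx
      refine ⟨insert i P, ?_, ?_, Function.update g i l, ?_, ?_, ?_⟩
      · intro x hx
        rcases Finset.mem_insert.mp hx with rfl | hx
        · exact hi
        · exact hI'I x (hP1 hx)
      · rw [Finset.card_insert_of_notMem hiP, hP2]
      · intro x hx
        rcases Finset.mem_insert.mp hx with rfl | hx
        · rw [Function.update_self]
          refine ⟨hl, fun h => ?_⟩
          rcases Finset.mem_insert.mp h with h | h
          · exact hil h.symm
          · exact hlP h
        · rw [hu x hx]
          obtain ⟨h1, h2⟩ := hg1 x hx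
          refine ⟨hI'I _ h1, fun h => ?_⟩
          rcases Finset.mem_insert.mp h with h | h
          · rw [h] at h1; exact hiI' h1
          · exact h2 h
      · intro x hx y hy hxy
        rcases Finset.mem_insert.mp hx with hxi | hxP
        · rcases Finset.mem_insert.mp hy with hyi | hyP
          · rw [hxi, hyi]
          · exfalso
            rw [hxi, Function.update_self, hu y hyP] at hxy
            have := (hg1 y hyP).1
            rw [← hxy] at this
            exact hlI' this
        · rcases Finset.mem_insert.mp hy with hyi | hyP
          · exfalso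
            rw [hyi, Function.update_self, hu x hxP] at hxy
            have := (hg1 x hxP).1
            rw [hxy] at this
            exact hlI' this
          · rw [hu x hxP, hu y hyP] at hxy
            exact hg2 x hxP y hyP hxy
      · intro x hx
        rcases Finset.mem_insert.mp hx with rfl | hx
        · rw [Function.update_self]
          exact ⟨hbil, hcil⟩
        · rw [hu x hx]
          exact hg3 x hx
    · exfalso
      have h1 : I.card ≤ 1 := by
        refine card_le_one hp hb hc (fun i hi l hl h => hopp ⟨i, hi, l, hl, h⟩)
          fun s h0 h1 => (hcount s h0 h1).mono fun x hx => ?_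
        have h3 := npos_add_nneg_le p b c I s x
        rw [F_eq, abs_le]
        have h4 : (npos p b c I s x : ℝ) ≤ nneg p b c I s x + 1 := by
          have : npos p b c I s x ≤ nneg p b c I s x + 1 := by omega
          exact_mod_cast this
        have h5 : (nneg p b c I s x : ℝ) ≤ npos p b c I s x + 1 := by
          have : nneg p b c I s x ≤ npos p b c I s x + 1 := by omega
          exact_mod_cast this
        constructor <;> linarith
      obtain ⟨x, hx⟩ := (hcount 1 one_pos hp.one_lt).exists
      have h3 := npos_add_nneg_le p b c I 1 x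
      omega

end Pool.Agent.Superell
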