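import Pool.Agent.Superell.GInv
import Pool.Agent.Superell.Pairs
import Pool.Agent.UpperHalf.Comb

/-!
# Lifting to the kernel of a matrix
-/

set_option autoImplicit false

open Finset Matrix

namespace Pool.Agent.Superell

variable {k r : ℕ}

/-- the real matrix -/
noncomputable def rm (M : Matrix (Fin k) (Fin r) ℤ) : Matrix (Fin k) (Fin r) ℝ :=
  M.map (Int.castRingHom ℝ)

theorem rm_mul {l : ℕ} (M : Matrix (Fin k) (Fin r) ℤ) (N : Matrix (Fin r) (Fin l) ℤ) :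
    rm (M * N) = rm M * rm N := Matrix.map_mul

theorem rm_int (M : Matrix (Fin k) (Fin r) ℤ) (v : Fin r → ℤ) (i : Fin k) :
    (rm M *ᵥ fun l => (v l : ℝ)) i = ((M *ᵥ v) i : ℤ) := by
  simp [rm, Matrix.mulVec, dotProduct]

theorem rm_smul (E : ℤ) (M : Matrix (Fin k) (Fin r) ℤ) : rm (E • M) = (E : ℝ) • rm M := by
  ext i l
  simp [rm]

theorem rm_sub (M N : Matrix (Fin k) (Fin r) ℤ) : rm (M - N) = rm M - rm N := by
  ext i l
  simp [rm]

theorem rm_one : rm (1 : Matrix (Fin r) (Fin r) ℤ) = 1 := by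
  ext i l
  by_cases h : i = l
  · subst h; simp [rm]
  · simp [rm, Matrix.one_apply_ne h]

/-- the projection to the kernel -/
def Km (R : Matrix (Fin k) (Fin r) ℤ) (S : Matrix (Fin r) (Fin k) ℤ) (E : ℤ) :
    Matrix (Fin r) (Fin r) ℤ := E • 1 - S * R

theorem R_Km {R : Matrix (Fin k) (Fin r) ℤ} {S : Matrix (Fin r) (Fin k) ℤ} {E : ℤ}
    (hS : R * S * R = E • R) : R * Km R S E = 0 := by
  rw [Km, Matrix.mul_sub, ← Matrix.mul_assoc, hS, Matrix.mul_smul, Matrix.mul_one, sub_self]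

theorem Km_apply {R : Matrix (Fin k) (Fin r) ℤ} {S : Matrix (Fin r) (Fin k) ℤ} {E : ℤ}
    {ξ : Fin r → ℝ} (h : rm R *ᵥ ξ = 0) : rm (Km R S E) *ᵥ ξ = (E : ℝ) • ξ := by
  rw [Km, rm_sub, rm_smul, rm_one, rm_mul, Matrix.sub_mulVec, ← Matrix.mulVec_mulVec, h,
    Matrix.mulVec_zero, sub_zero, Matrix.smul_mulVec, Matrix.one_mulVec]

theorem lift {P R : Matrix (Fin k) (Fin r) ℤ} {E : ℕ} {S : Matrix (Fin r) (Fin k) ℤ}
    (hS : R * S * R = (E : ℤ) • R) {n : ℕ} (hn : Nat.Coprime E n) {x : Fin k → ℝ}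
    (hx : ∀ i, ∃ z : ℤ, n * x i = z) {ξ : Fin r → ℝ}
    (h1 : ∀ i, ∃ z : ℤ, (rm P *ᵥ ξ) i = x i + z) (h2 : ∀ i, ∃ z : ℤ, (rm R *ᵥ ξ) i = z) :
    ∃ ξ' : Fin r → ℝ, (∀ i, ∃ z : ℤ, (rm P *ᵥ ξ') i = x i + z) ∧ rm R *ᵥ ξ' = 0 := by
  choose zx hzx using hx
  choose zP hzP using h1
  choose z hz using h2
  obtain ⟨μ, lam, hbez⟩ := (Nat.isCoprime_iff_coprime.mpr hn)
  have hz' : rm R *ᵥ ξ = fun l => (z l : ℝ) := funext hz
  have hbezR : (μ : ℝ) * E + lam * n = 1 := by exact_mod_cast hbez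
  refine ⟨(μ : ℝ) • ((E : ℝ) • ξ - rm S *ᵥ fun l => (z l : ℝ)), fun i => ?_, ?_⟩
  · have h3 : (rm P *ᵥ (rm S *ᵥ fun l => (z l : ℝ))) i = ((P *ᵥ (S *ᵥ z)) i : ℤ) := by
      have h4 : (rm S *ᵥ fun l => (z l : ℝ)) = fun l => ((S *ᵥ z) l : ℝ) := by
        funext l; exact rm_int S z l
      rw [h4, rm_int]
    rw [Matrix.mulVec_smul, Matrix.mulVec_sub, Matrix.mulVec_smul]
    simp only [Pi.smul_apply, Pi.sub_apply, smul_eq_mul]
    rw [h3, hzP i]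
    refine ⟨- lam * zx i + μ * E * zP i - μ * (P *ᵥ (S *ᵥ z)) i, ?_⟩
    push_cast
    rw [← hzx i]
    linear_combination (x i) * hbezR
  · rw [Matrix.mulVec_smul, Matrix.mulVec_sub, Matrix.mulVec_smul, ← hz', Matrix.mulVec_mulVec,
      Matrix.mulVec_mulVec, ← rm_mul, ← rm_mul, hS, rm_smul, Matrix.smul_mulVec]
    rw [Int.cast_natCast, sub_self, smul_zero]

theorem part {P R : Matrix (Fin k) (Fin r) ℤ} {E : ℕ} {S : Matrix (Fin r) (Fin k) ℤ}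
    (hS : R * S * R = (E : ℤ) • R) {N n : ℕ} (hN : 0 < N) (hEn : Nat.Coprime E n) {q : ℕ}
    (hq : 0 < q) (hqN : q ∣ N) {cP cR : Fin k → ℤ} {κ : Fin r → ℤ} {αP αR : Fin k → ℤ}
    (hP : ∀ i, (N : ℤ) ∣ αP i - ((P *ᵥ κ) i + ((N / q : ℕ) : ℤ) * cP i))
    (hR : ∀ i, (N : ℤ) ∣ αR i - ((R *ᵥ κ) i + ((N / q : ℕ) : ℤ) * cR i))
    {u : ℤ} (hqu : (q : ℤ) ∣ u) (huP : ∀ i, (N : ℤ) ∣ (u - 1) * αP i)
    (huR : ∀ i, (N : ℤ) ∣ u * αR i) (hnP : ∀ i, (N : ℤ) ∣ n * αP i) :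
    ∃ ξ' : Fin r → ℝ, (∀ i, ∃ z : ℤ, (rm P *ᵥ ξ') i = αP i / N + z) ∧ rm R *ᵥ ξ' = 0 := by
  have hNR : (N : ℝ) ≠ 0 := by exact_mod_cast hN.ne'
  have hqR : (q : ℝ) ≠ 0 := by exact_mod_cast hq.ne'
  obtain ⟨N', hN'⟩ := hqN
  have hNq : N / q = N' := by rw [hN']; exact Nat.mul_div_cancel_left N' hq
  have hN'R : (N : ℝ) = q * N' := by exact_mod_cast hN'
  obtain ⟨u', hu'⟩ := hqu
  have huR' : (u : ℝ) = q * u' := by exact_mod_cast hu'
  have hξ : (fun l => (u * κ l : ℝ) / N) = ((u : ℝ) / N) • fun l => (κ l : ℝ) := by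
    funext l
    simp only [Pi.smul_apply, smul_eq_mul]
    ring
  refine lift (ξ := fun l => (u * κ l : ℝ) / N) hS hEn (fun i => ?_) (fun i => ?_) (fun i => ?_)
  · obtain ⟨z, hz⟩ := hnP i
    refine ⟨z, ?_⟩
    have : (n : ℝ) * αP i = N * z := by exact_mod_cast hz
    rw [mul_div_assoc', this]
    field_simp
  · rw [hξ, Matrix.mulVec_smul, Pi.smul_apply, rm_int, smul_eq_mul]
    obtain ⟨z, hz⟩ := hP i
    obtain ⟨z', hz'⟩ := huP i
    rw [hNq] at hz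
    have h1 : ((P *ᵥ κ) i : ℝ) = αP i - N' * cP i - N * z := by
      have : (P *ᵥ κ) i = αP i - N' * cP i - N * z := by linarith
      exact_mod_cast this
    have h2 : ((u : ℝ) - 1) * αP i = N * z' := by exact_mod_cast hz'
    refine ⟨z' - u' * cP i - u * z, ?_⟩
    rw [h1]
    push_cast
    have h3 : (u : ℝ) * N' = u' * N := by rw [huR', hN'R]; ring
    field_simp
    linear_combination h2 - (cP i : ℝ) * h3
  · rw [hξ, Matrix.mulVec_smul, Pi.smul_apply, rm_int, smul_eq_mul]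
    obtain ⟨z, hz⟩ := hR i
    obtain ⟨z', hz'⟩ := huR i
    rw [hNq] at hz
    have h1 : ((R *ᵥ κ) i : ℝ) = αR i - N' * cR i - N * z := by
      have : (R *ᵥ κ) i = αR i - N' * cR i - N * z := by linarith
      exact_mod_cast this
    have h2 : (u : ℝ) * αR i = N * z' := by exact_mod_cast hz'
    refine ⟨z' - u' * cR i - u * z, ?_⟩
    rw [h1]
    push_cast
    have h3 : (u : ℝ) * N' = u' * N := by rw [huR', hN'R]; ring
    field_simp
    linear_combination h2 - (cR i : ℝ) * h3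

/-- a generic vector -/
theorem generic (M : Matrix (Fin k) (Fin r) ℤ) : ∃ v : Fin r → ℤ,
    (∀ i, M i ≠ 0 → (M *ᵥ v) i ≠ 0) ∧
    ∀ i l, (M *ᵥ v) i + (M *ᵥ v) l = 0 → M i + M l = 0 := by
  classical
  let W : Finset (Fin r → ℤ) := ((Finset.univ.image fun i => M i) ∪
    (Finset.univ.image fun p : Fin k × Fin k => M p.1 + M p.2)).filter (fun x => x ≠ 0)
  obtain ⟨v, hv⟩ := UpperHalf.exists_generic W (fun x hx => (Finset.mem_filter.mp hx).2)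
  refine ⟨v, fun i hi => ?_, fun i l h => ?_⟩
  · exact hv (M i) (Finset.mem_filter.mpr ⟨Finset.mem_union_left _
      (Finset.mem_image_of_mem _ (Finset.mem_univ i)), hi⟩)
  · by_contra hne
    refine hv (M i + M l) (Finset.mem_filter.mpr ⟨?_, hne⟩) ?_
    · exact Finset.mem_union_right _ (Finset.mem_image.mpr ⟨(i, l), Finset.mem_univ _, rfl⟩)
    · simp only [Pi.add_apply, add_mul, Finset.sum_add_distrib]
      exact h

end Pool.Agent.Superell
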