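import Pool.Agent.UpperHalf.Main
import Pool.Agent.Superell.Comb

/-!
# The generalized Hodge conjecture in level at most one for abelian varieties of superelliptic type
-/

set_option autoImplicit false

universe u

open Polynomial

namespace Pool.Agent.Superell

open Complex Pool.Agent.GHC Pool.Agent.UpperHalf

section CM

variable {V : Type u} [NormedAddCommGroup V] [NormedSpace ℂ V]
  {Λ : Submodule ℤ V} {E : V →L[ℝ] V →L[ℝ] ℝ} {T : V →L[ℂ] V} {N : ℕ} {q : ℂ → ℝ}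

theorem eigen_q (hT : ∀ (z : ℂ) (v : V), v ≠ 0 → T v = z • v → 0 < q z) {φ : ℤ[X] →+* ℂ}
    (hφ : eigen (ρT T) φ ≠ ⊥) : 0 < q (φ X) := by
  obtain ⟨v, hv, hv0⟩ := Submodule.exists_mem_ne_zero_of_ne_bot hφ
  exact hT _ v hv0 ((mem_eigen_iff T φ v).mp hv)

theorem hasCM' [FiniteDimensional ℂ V] (hE : IsRiemannForm Λ E) (hN : 0 < N)
    (hTΛ : ∀ l ∈ Λ, T l ∈ Λ) (hTN : T ^ N = 1) (hq : ∀ z, q ((starRingEnd ℂ) z) = - q z)
    (hT : ∀ (z : ℂ) (v : V), v ≠ 0 → T v = z • v → 0 < q z) : HasCM Λ (avg E T N) (ρT T) where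
  riemann := avg_riemann hE hN hTΛ hTN
  rational r l hl := ⟨1, one_ne_zero, by rw [one_smul]; exact rho_mem hTΛ r l hl⟩
  rosati r := rosati_aux hN hTN r
  diagonalizable := by
    let f : Module.End ℂ V := (T : V →ₗ[ℂ] V)
    have hf : f ^ N = 1 := by
      apply LinearMap.ext
      intro v
      have h1 : ∀ n : ℕ, (f ^ n) v = (T ^ n) v := by
        intro n
        induction n with
        | zero => simp
        | succ n ih =>
          rw [pow_succ', pow_succ']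
          change f ((f ^ n) v) = T ((T ^ n) v)
          rw [ih]
          rfl
      rw [h1, hTN]
      rfl
    have hss : f.IsSemisimple := by
      refine Module.End.isSemisimple_of_squarefree_aeval_eq_zero (p := (X ^ N - 1 : ℂ[X])) ?_ ?_
      · have h1 : (X ^ N - C (1 : ℂ)).Separable :=
          Polynomial.separable_X_pow_sub_C 1 (by exact_mod_cast hN.ne') one_ne_zero
        rw [C_1] at h1
        exact h1.squarefree
      · simp [hf]
    rw [eq_top_iff, ← hss.iSup_eigenspace_eq_top]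
    refine iSup_le fun μ => ?_
    refine le_trans ?_ (le_iSup _ ((Polynomial.eval₂RingHom (Int.castRingHom ℂ) μ)))
    intro v hv
    rw [mem_eigen_iff]
    have h1 : T v = μ • v := Module.End.mem_eigenspace_iff.mp hv
    simpa using h1
  cmType φ hφ := by
    by_contra hcon
    have h1 := eigen_q hT hφ
    have h2 := eigen_q hT hcon
    have h3 : cj φ X = (starRingEnd ℂ) (φ X) := rfl
    rw [h3, hq] at h2
    linarith

end CM

/-- The sign condition for the composition. -/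
noncomputable def qf (u v : ℕ) (z : ℂ) : ℝ := (z ^ u + z ^ v - z ^ u * z ^ v).im

theorem qf_conj (u v : ℕ) (z : ℂ) : qf u v ((starRingEnd ℂ) z) = - qf u v z := by
  unfold qf
  rw [← map_pow, ← map_pow, ← map_mul, ← map_add, ← map_sub, conj_im]

theorem ee_pow (N : ℕ) (a : ℤ) (u : ℕ) : ee N a ^ u = ee N (u * a) := by
  rw [ee_eq, ee_eq, ← zpow_natCast, ← zpow_mul, mul_comm a]

theorem ee_add (N : ℕ) (a b : ℤ) : ee N a * ee N b = ee N (a + b) := by
  rw [ee_eq, ee_eq, ee_eq, ← zpow_add₀ (Complex.exp_ne_zero _)]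

theorem qf_ee (u v N : ℕ) (a : ℤ) :
    qf u v (ee N a) = G ((((u : ℤ) : ℝ) * a) / N) ((((v : ℤ) : ℝ) * a) / N) := by
  unfold qf G
  rw [ee_pow, ee_pow, ee_add, sub_im, add_im, ee_im, ee_im, ee_im]
  congr 1
  · push_cast
    rfl
  · push_cast
    rw [add_div]

theorem G_int_left (x y : ℝ) {z : ℤ} (h : x = z) : G x y = 0 := G_eq_zero.mpr (Or.inl ⟨z, h⟩)

theorem G_int_right (x y : ℝ) {z : ℤ} (h : y = z) : G x y = 0 :=
  G_eq_zero.mpr (Or.inr (Or.inl ⟨z, h⟩))

theorem ghc_superelliptic (k : ℕ) : ∃ D : Finset ℕ, (∀ d ∈ D, 1 < d) ∧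
    ∀ {V : Type u} [NormedAddCommGroup V] [NormedSpace ℂ V] [FiniteDimensional ℂ V]
      {Λ : Submodule ℤ V} [DiscreteTopology Λ] [IsZLattice ℝ Λ] {E : V →L[ℝ] V →L[ℝ] ℝ}
      (_ : IsRiemannForm Λ E) (S T : V →L[ℂ] V) (m n : ℕ), 0 < m → 0 < n → m.Coprime n →
      (∀ d ∈ D, ¬ d ∣ n) → (m.Prime ∨ ∀ d ∈ D, ¬ d ∣ m) →
      (∀ l ∈ Λ, S l ∈ Λ) → (∀ l ∈ Λ, T l ∈ Λ) → S * T = T * S → S ^ n = 1 → T ^ m = 1 →
      (∀ (z w : ℂ) (v : V), v ≠ 0 → S v = z • v → T v = w • v → 0 < (z + w - z * w).im) →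
      ∀ j : ℕ, k ≤ 2 * j + 1 → GeneralizedHodge Λ j k := by
  classical
  obtain ⟨D, hD, hcomb⟩ := comb k
  refine ⟨D, hD, ?_⟩
  intro V _ _ _ Λ _ _ E hE S T m n hm0 hn0 hmn hDn hDm hSΛ hTΛ hST hSn hTm hsign j hj
  obtain ⟨u, hun, hum⟩ := Nat.chineseRemainder hmn.symm 1 0
  obtain ⟨v, hvn, hvm⟩ := Nat.chineseRemainder hmn.symm 0 1
  have har : Ar m n (u : ℤ) (v : ℤ) :=
    { mpos := hm0
      npos := hn0
      cop := hmn
      mu := by exact_mod_cast (Nat.modEq_zero_iff_dvd.mp hum)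
      nu := by
        have := (Nat.modEq_iff_dvd.mp hun.symm)
        exact_mod_cast this
      nv := by exact_mod_cast (Nat.modEq_zero_iff_dvd.mp hvn)
      mv := by
        have := (Nat.modEq_iff_dvd.mp hvm.symm)
        exact_mod_cast this }
  set N := m * n with hNdef
  have hN : 0 < N := Nat.mul_pos hm0 hn0
  set T₀ : V →L[ℂ] V := S * T with hT₀
  have hcomm : Commute S T := hST
  have hT₀N : T₀ ^ N = 1 := by
    rw [hT₀, hcomm.mul_pow, hNdef, pow_mul T, hTm, one_pow, mul_one, mul_comm m n, pow_mul, hSn,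
      one_pow]
  have hT₀u : T₀ ^ u = S := by
    rw [hT₀, hcomm.mul_pow, pow_eq_pow_mod u hTm, pow_eq_pow_mod u hSn]
    have h1 : u % m = 0 := by simpa [Nat.ModEq] using hum
    have h2 : u % n = 1 % n := hun
    rw [h1, h2, pow_zero, mul_one, ← pow_eq_pow_mod 1 hSn, pow_one]
  have hT₀v : T₀ ^ v = T := by
    rw [hT₀, hcomm.mul_pow, pow_eq_pow_mod v hTm, pow_eq_pow_mod v hSn]
    have h1 : v % n = 0 := by simpa [Nat.ModEq] using hvn
    have h2 : v % m = 1 % m := hvm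
    rw [h1, h2, pow_zero, one_mul, ← pow_eq_pow_mod 1 hTm, pow_one]
  have hT₀Λ : ∀ l ∈ Λ, T₀ l ∈ Λ := fun l hl => hSΛ _ (hTΛ l hl)
  have hpow : ∀ (z : ℂ) (x : V), T₀ x = z • x → ∀ i : ℕ, (T₀ ^ i) x = z ^ i • x := by
    intro z x hx i
    induction i with
    | zero => simp
    | succ i ih =>
      rw [pow_succ']
      change T₀ ((T₀ ^ i) x) = _
      rw [ih, _root_.map_smul, hx, smul_smul, pow_succ]
  have hq : ∀ (z : ℂ) (x : V), x ≠ 0 → T₀ x = z • x → 0 < qf u v z := by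
    intro z x hx0 hx
    have h1 := hpow z x hx u
    have h2 := hpow z x hx v
    rw [hT₀u] at h1
    rw [hT₀v] at h2
    exact hsign _ _ x hx0 h1 h2
  have h := hasCM' hE hN hT₀Λ hT₀N (qf_conj u v) hq
  refine h.ghc ?_
  intro l hl hmem hσ
  obtain ⟨c, hc⟩ := exists_fin_map l hl
  have hcl : ∀ i, c i ∈ l := by
    intro i
    rw [← hc]
    exact Multiset.mem_map_of_mem c (Finset.mem_univ i)
  have hcj : ∀ φ : ℤ[X] →+* ℂ, cj φ X = (starRingEnd ℂ) (φ X) := fun _ => rfl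
  -- signs
  have hsgn : ∀ φ : ℤ[X] →+* ℂ, (eigen (ρT T₀) φ ≠ ⊥ ∨ eigen (ρT T₀) (cj φ) ≠ ⊥) →
      (eigen (ρT T₀) φ ≠ ⊥ ↔ 0 < qf u v (φ X)) ∧ (¬ eigen (ρT T₀) φ ≠ ⊥ ↔ qf u v (φ X) < 0) := by
    intro φ hφ
    by_cases h1 : eigen (ρT T₀) φ ≠ ⊥
    · have h2 := eigen_q hq h1
      exact ⟨⟨fun _ => h2, fun _ => h1⟩, ⟨fun h' => absurd h1 h', fun h' => absurd h' (not_lt.mpr h2.le)⟩⟩
    · have h2 := eigen_q hq (hφ.resolve_left h1)
      rw [hcj, qf_conj] at h2
      have h4 : qf u v (φ X) < 0 := by linarith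
      exact ⟨⟨fun h' => absurd h' h1, fun h' => absurd h' (not_lt.mpr h4.le)⟩, ⟨fun _ => h4, fun _ => h1⟩⟩
  have hroot : ∀ i, ∃ a : ℤ, c i X = ee N a := by
    intro i
    apply exists_ee hN
    rcases hmem _ (hcl i) with h1 | h1
    · exact eigen_pow hT₀N h1
    · have h2 := eigen_pow hT₀N h1
      rw [hcj, ← map_pow] at h2
      have h4 := congrArg (starRingEnd ℂ) h2
      simpa using h4
  choose a ha using hroot
  have hG : ∀ i, G ((((u : ℤ) : ℝ) * a i) / N) ((((v : ℤ) : ℝ) * a i) / N) ≠ 0 := by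
    intro i
    rw [← qf_ee, ← ha i]
    obtain ⟨h2, h3⟩ := hsgn (c i) (hmem _ (hcl i))
    by_cases h4 : eigen (ρT T₀) (c i) ≠ ⊥
    · exact (h2.mp h4).ne'
    · exact (h3.mp h4).ne
  have hNR : (N : ℝ) ≠ 0 := by exact_mod_cast hN.ne'
  have han : ∀ i, ¬ (n : ℤ) ∣ a i := by
    intro i hdvd
    obtain ⟨z, hz⟩ : (N : ℤ) ∣ u * a i := by
      rw [hNdef]
      push_cast
      exact mul_dvd_mul har.mu hdvd
    apply hG i
    refine G_int_left _ _ (z := z) ?_
    rw [div_eq_iff hNR]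
    have : ((u : ℤ) : ℝ) * a i = N * z := by exact_mod_cast hz
    rw [this]; ring
  have ham : ∀ i, ¬ (m : ℤ) ∣ a i := by
    intro i hdvd
    obtain ⟨z, hz⟩ : (N : ℤ) ∣ v * a i := by
      rw [hNdef]
      push_cast
      rw [mul_comm (m : ℤ)]
      exact mul_dvd_mul har.nv hdvd
    apply hG i
    refine G_int_right _ _ (z := z) ?_
    rw [div_eq_iff hNR]
    have : ((v : ℤ) : ℝ) * a i = N * z := by exact_mod_cast hz
    rw [this]; ring
  have hcard : ∀ (P : (ℤ[X] →+* ℂ) → Prop) [DecidablePred P], (l.filter P).card =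
      (Finset.univ.filter fun i => P (c i)).card := by
    intro P _
    rw [← hc, Multiset.filter_map, Multiset.card_map]
    rfl
  obtain ⟨P, hP1, g, hg1, hg2, hg3⟩ := hcomb m n u v har hDn hDm j hj a han ham (by
    intro t ht
    obtain ⟨σ, hσt⟩ := exists_sigma hN ht
    obtain ⟨h1, h2⟩ := hσ σ
    rw [hcard] at h1 h2
    have h3 : ∀ i, qf u v (σ.comp (c i) X) =
        G ((t * (((u : ℤ) : ℝ) * a i)) / N) ((t * (((v : ℤ) : ℝ) * a i)) / N) := by
      intro i
      rw [RingHom.comp_apply, ha i, hσt, qf_ee]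
      congr 1
      · push_cast; ring
      · push_cast; ring
    have h4 : ∀ i, _ := fun i => hsgn (σ.comp (c i)) (h.comp_mem σ (hmem _ (hcl i)))
    refine ⟨h1.trans (le_of_eq ?_), h2.trans (le_of_eq ?_)⟩
    · congr 1
      refine Finset.filter_congr fun i _ => ?_
      rw [← h3]
      exact (h4 i).1
    · congr 1
      refine Finset.filter_congr fun i _ => ?_
      rw [← h3]
      exact (h4 i).2)
  have hpair : ∀ i ∈ P, cj (c i) = c (g i) := by
    intro i hi
    apply char_ext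
    rw [hcj, ha, ha, ee_neg]
    refine ee_congr hN ?_
    have h1 := hg3 i hi
    have h2 : -a i - a (g i) = -(a i + a (g i)) := by ring
    rw [h2]
    exact (dvd_neg).mpr h1
  refine ⟨P.val.map c, by rw [Multiset.card_map]; exact hP1, ?_⟩
  have hdisj : Disjoint P (P.image g) := by
    rw [Finset.disjoint_left]
    intro i hi hi'
    obtain ⟨i', hi'1, rfl⟩ := Finset.mem_image.mp hi'
    exact hg1 i' hi'1 hi
  have h1 : (P.val.map c).map cj = (P.image g).val.map c := by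
    rw [Finset.image_val_of_injOn (fun x hx y hy hxy => hg2 x hx y hy hxy), Multiset.map_map,
      Multiset.map_map]
    exact Multiset.map_congr rfl fun i hi => hpair i hi
  rw [h1, ← Multiset.map_add, ← hc]
  refine Multiset.map_le_map ?_
  have h2 : P.val + (P.image g).val = (P.disjUnion (P.image g) hdisj).val := rfl
  rw [h2]
  exact Finset.val_le_iff.mpr (Finset.subset_univ _)

end Pool.Agent.Superell
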