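import Pool.Agent.Superell.Harm

/-!
# Parseval's identity modulo `p`
-/

set_option autoImplicit false

open Finset

namespace Pool.Agent.Superell

variable {ι : Type*}

theorem e_nat_mul (x : ℝ) (n : ℕ) : e (n * x) = e x ^ n := by
  induction n with
  | zero => simp [e_zero]
  | succ n ih =>
    rw [pow_succ, ← ih, ← e_add]
    congr 1
    push_cast
    ring

theorem e_div_eq_one {p : ℕ} (hp : 0 < p) (d : ℤ) : e (d / p) = 1 ↔ (p : ℤ) ∣ d := by
  have hpR : (p : ℝ) ≠ 0 := by exact_mod_cast hp.ne'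
  rw [e_eq_one]
  constructor
  · rintro ⟨z, hz⟩
    rw [div_eq_iff hpR] at hz
    refine ⟨z, ?_⟩
    have : (d : ℝ) = ((p * z : ℤ) : ℝ) := by push_cast; rw [hz]; ring
    exact_mod_cast this
  · rintro ⟨z, rfl⟩
    refine ⟨z, ?_⟩
    push_cast
    field_simp

theorem geom {p : ℕ} (hp : 0 < p) (d : ℤ) :
    ∑ s ∈ range p, e (s * d / p) = if (p : ℤ) ∣ d then (p : ℂ) else 0 := by
  have hpR : (p : ℝ) ≠ 0 := by exact_mod_cast hp.ne'
  have h1 : ∀ s ∈ range p, e (s * d / p) = e (d / p) ^ s := by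
    intro s _
    rw [← e_nat_mul]
    congr 1
    ring
  rw [Finset.sum_congr rfl h1]
  split_ifs with h
  · rw [(e_div_eq_one hp d).mpr h]
    simp
  · have h2 : e (d / p) ≠ 1 := fun h' => h ((e_div_eq_one hp d).mp h')
    rw [geom_sum_eq h2, ← e_nat_mul]
    have h3 : (p : ℝ) * (d / p) = (d : ℤ) := by field_simp
    rw [h3, e_int, sub_self, zero_div]

/-- the sum -/
noncomputable def Q (p : ℕ) (κ d : ι → ℤ) (J : Finset ι) (s : ℕ) : ℂ :=
  ∑ i ∈ J, (κ i : ℂ) * (1 - e (s * d i / p))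

/-- the form -/
def Nf (p : ℕ) (κ d : ι → ℤ) (J : Finset ι) : ℤ :=
  ∑ i ∈ J, ∑ l ∈ J, κ i * κ l * (1 + if (p : ℤ) ∣ d i - d l then 1 else 0)

theorem pars {p : ℕ} (hp : 0 < p) (κ d : ι → ℤ) (J : Finset ι)
    (hd : ∀ i ∈ J, ¬ (p : ℤ) ∣ d i) :
    ∑ s ∈ range p, Complex.normSq (Q p κ d J s) = p * Nf p κ d J := by
  have h1 : ∀ s, ((Complex.normSq (Q p κ d J s) : ℝ) : ℂ) =
      ∑ i ∈ J, ∑ l ∈ J, (κ i * κ l : ℂ) * (1 - e (s * d i / p) - e (s * (-d l : ℤ) / p) +
        e (s * (d i - d l : ℤ) / p)) := by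
    intro s
    rw [← Complex.mul_conj]
    have h2 : (starRingEnd ℂ) (Q p κ d J s) =
        ∑ l ∈ J, (κ l : ℂ) * (1 - e (s * (-d l : ℤ) / p)) := by
      rw [Q, map_sum]
      refine Finset.sum_congr rfl fun l _ => ?_
      rw [map_mul, map_sub, map_one, ← e_neg]
      have e1 : (starRingEnd ℂ) (κ l : ℂ) = κ l := by
        rw [← Complex.ofReal_intCast, Complex.conj_ofReal]
      rw [e1]
      congr 3
      push_cast
      ring
    rw [h2, Q, Finset.sum_mul_sum]
    refine Finset.sum_congr rfl fun i _ => Finset.sum_congr rfl fun l _ => ?_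
    have h3 : e (s * (d i - d l : ℤ) / p) = e (s * d i / p) * e (s * (-d l : ℤ) / p) := by
      rw [← e_add]
      congr 1
      push_cast
      ring
    rw [h3]
    ring
  have h2 : ((∑ s ∈ range p, Complex.normSq (Q p κ d J s) : ℝ) : ℂ) =
      ((p * Nf p κ d J : ℝ) : ℂ) := by
    rw [Complex.ofReal_sum, Finset.sum_congr rfl fun s _ => h1 s, Finset.sum_comm]
    unfold Nf
    push_cast
    rw [Finset.mul_sum]
    refine Finset.sum_congr rfl fun i hi => ?_
    rw [Finset.sum_comm, Finset.mul_sum]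
    refine Finset.sum_congr rfl fun l hl => ?_
    rw [← Finset.mul_sum]
    have h4 : ∑ s ∈ range p, (1 - e (s * d i / p) - e (s * (-d l : ℤ) / p) +
        e (s * (d i - d l : ℤ) / p)) = p - 0 - 0 + if (p : ℤ) ∣ d i - d l then (p : ℂ) else 0 := by
      rw [Finset.sum_add_distrib, Finset.sum_sub_distrib, Finset.sum_sub_distrib, geom hp (d i),
        geom hp (-d l), geom hp (d i - d l), if_neg (hd i hi),
        if_neg (fun h => hd l hl ((dvd_neg).mp h))]
      simp
    push_cast at h4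
    rw [h4]
    split_ifs
    · rw [Complex.ofReal_one]
      ring
    · rw [Complex.ofReal_zero]
      ring
  exact_mod_cast h2

/-- The lower bound for the form. -/
theorem two_le_Nf {p : ℕ} {κ d : ι → ℤ} {J : Finset ι} (hJ : J.Nonempty)
    (hκ : ∀ i ∈ J, κ i = 1 ∨ κ i = -1)
    (hopp : ∀ i ∈ J, ∀ l ∈ J, (p : ℤ) ∣ d i - d l → κ i = κ l) : 2 ≤ Nf p κ d J := by
  classical
  have h1 : Nf p κ d J = (∑ i ∈ J, κ i) ^ 2 +
      ∑ i ∈ J, ∑ l ∈ J, κ i * κ l * (if (p : ℤ) ∣ d i - d l then 1 else 0) := by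
    unfold Nf
    simp only [mul_add, mul_one, Finset.sum_add_distrib]
    rw [pow_two, Finset.sum_mul_sum]
  have h2 : (J.card : ℤ) ≤ ∑ i ∈ J, ∑ l ∈ J, κ i * κ l * (if (p : ℤ) ∣ d i - d l then 1 else 0) := by
    have h3 : (J.card : ℤ) = ∑ i ∈ J, ∑ l ∈ J, if i = l then 1 else 0 := by
      have : ∀ i ∈ J, ∑ l ∈ J, (if i = l then (1 : ℤ) else 0) = 1 := by
        intro i hi
        rw [Finset.sum_ite_eq, if_pos hi]
      rw [Finset.sum_congr rfl this]
      simp
    rw [h3]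
    refine Finset.sum_le_sum fun i hi => Finset.sum_le_sum fun l hl => ?_
    split_ifs with h4 h5 h5
    · subst h4
      rcases hκ i hi with h | h <;> rw [h] <;> norm_num
    · subst h4
      exact absurd (by simp) h5
    · have h6 := hopp i hi l hl h5
      rw [← h6]
      rcases hκ i hi with h | h <;> rw [h] <;> norm_num
    · simp
  have h3 : 1 ≤ J.card := hJ.card_pos
  rw [h1]
  by_cases h4 : J.card = 1
  · obtain ⟨i, rfl⟩ := Finset.card_eq_one.mp h4
    rw [Finset.sum_singleton]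
    have h5 : κ i ^ 2 = 1 := by
      rcases hκ i (Finset.mem_singleton_self i) with h | h <;> rw [h] <;> norm_num
    rw [h5]
    have h6 : (1 : ℤ) ≤ (({i} : Finset ι).card : ℤ) := by rw [Finset.card_singleton]; norm_num
    linarith
  · have h5 : (2 : ℤ) ≤ J.card := by omega
    have h6 := sq_nonneg (∑ i ∈ J, κ i)
    linarith

theorem pars_single {p : ℕ} (hp : 0 < p) {C : ℤ} (hC : ¬ (p : ℤ) ∣ C) :
    ∑ s ∈ range p, Complex.normSq (1 - e (s * C / p)) = 2 * p := by
  have h1 := pars hp (fun _ : Unit => 1) (fun _ => C) Finset.univ (fun _ _ => hC)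
  have h2 : Nf p (fun _ : Unit => 1) (fun _ => C) Finset.univ = 2 := by
    simp [Nf]
  rw [h2] at h1
  have h3 : ∀ s, Q p (fun _ : Unit => 1) (fun _ => C) Finset.univ s = 1 - e (s * C / p) := by
    intro s
    simp [Q]
  simp only [h3] at h1
  rw [h1]
  push_cast
  ring

end Pool.Agent.Superell
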