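import Pool.Agent.Superell.Main

/-!
# The generalized Hodge conjecture in level at most one for abelian varieties of superelliptic type

All definitions used in the statement are in `Pool.Agent.GHC.Defs`.

Let `k` be given. Let `X = V/Λ` be a polarised complex torus of any dimension with two commuting
endomorphisms `S` and `T`, `S ^ n = 1`, `T ^ m = 1`, `m` and `n` coprime, such that
`Im (z + w - z w) > 0` for all common eigenvalues `(z, w)` of `(S, T)` on the tangent space `V`. For
instance `X` is any product of powers of Jacobians of the curves `y^m = x^{n'} + 1`, `n'` a divisor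
of `n`: here `S` and `T` are induced by `x ↦ e^{2πi/n'} x` and `y ↦ e^{2πi/m} y`, the eigenvalues
are `z = e^{2πi a/n'}`, `w = e^{-2πi b/m}` with `0 < a < n'`, `0 < b < m`, `a/n' < b/m`, and
`Im (z + w - z w) = 4 sin (πa/n') sin (π(1-b/m)) sin (π(a/n' + 1 - b/m))`. Then, if `m` is a prime
number or `m` is not divisible by any of finitely many integers greater than `1`, and `n` is not
divisible by any of these integers (which depend on `k` only), the generalized Hodge conjecture
holds for `X` in degree `k` and level at most one: the largest sub-Hodge structure of level at most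
`k - 2 j ≤ 1` in `H^k(X, ℚ)` vanishes off a closed analytic subset of codimension at least `j`.
-/

set_option autoImplicit false

universe u

namespace Pool.Agent.Superell

open Pool.Agent.GHC

/-- For every `k` there is a finite set `D` of integers greater than `1` such that the generalized
Hodge conjecture holds in degree `k` and all coniveaus `j` with `k ≤ 2 j + 1` for all polarised
complex tori with commuting endomorphisms `S`, `T`, `S ^ n = 1`, `T ^ m = 1`, `m` and `n` coprime,
`Im (z + w - z w) > 0` for all common eigenvalues `(z, w)` of `(S, T)` on the tangent space,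
provided that `n` is not divisible by any element of `D`, and that `m` is a prime number or is not
divisible by any element of `D`. -/
theorem superelliptic_level_one (k : ℕ) : ∃ D : Finset ℕ, (∀ d ∈ D, 1 < d) ∧
    ∀ (V : Type u) [NormedAddCommGroup V] [NormedSpace ℂ V] [FiniteDimensional ℂ V]
      (Λ : Submodule ℤ V) [DiscreteTopology Λ] [IsZLattice ℝ Λ] (E : V →L[ℝ] V →L[ℝ] ℝ),
      IsRiemannForm Λ E → ∀ (S T : V →L[ℂ] V) (m n : ℕ), 0 < m → 0 < n → m.Coprime n →
      (∀ l ∈ Λ, S l ∈ Λ) → (∀ l ∈ Λ, T l ∈ Λ) → S * T = T * S → S ^ n = 1 → T ^ m = 1 →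
      (∀ (z w : ℂ) (v : V), v ≠ 0 → S v = z • v → T v = w • v → 0 < (z + w - z * w).im) →
      (∀ d ∈ D, ¬ d ∣ n) → (m.Prime ∨ ∀ d ∈ D, ¬ d ∣ m) →
      ∀ j : ℕ, k ≤ 2 * j + 1 → GeneralizedHodge Λ j k := by
  obtain ⟨D, hD, h⟩ := Pool.Agent.Superell.ghc_superelliptic.{u} k
  exact ⟨D, hD, fun V _ _ _ Λ _ _ E hE S T m n hm hn hmn hSΛ hTΛ hST hSn hTm hsign hDn hDm j hj =>
    h hE S T m n hm hn hmn hDn hDm hSΛ hTΛ hST hSn hTm hsign j hj⟩

end Pool.Agent.Superell
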