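import Mathlib

/-!
# The sign of `sin 2πx + sin 2πy - sin 2π(x+y)`
-/

set_option autoImplicit false

open MeasureTheory intervalIntegral

namespace Pool.Agent.Superell

/-- `sin 2πx + sin 2πy - sin 2π(x+y)` -/
noncomputable def G (x y : ℝ) : ℝ :=
  Real.sin (2 * Real.pi * x) + Real.sin (2 * Real.pi * y) - Real.sin (2 * Real.pi * (x + y))

/-- `exp (2πix)` -/
noncomputable def e (x : ℝ) : ℂ := Complex.exp (2 * Real.pi * x * Complex.I)

theorem G_eq (x y : ℝ) : G x y = 4 * Real.sin (Real.pi * x) * Real.sin (Real.pi * y) *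
    Real.sin (Real.pi * (x + y)) := by
  unfold G
  have h1 : Real.sin (2 * Real.pi * x) = 2 * Real.sin (Real.pi * x) * Real.cos (Real.pi * x) := by
    rw [← Real.sin_two_mul]; congr 1; ring
  have h2 : Real.sin (2 * Real.pi * y) = 2 * Real.sin (Real.pi * y) * Real.cos (Real.pi * y) := by
    rw [← Real.sin_two_mul]; congr 1; ring
  have h3 : Real.sin (2 * Real.pi * (x + y)) =
      2 * Real.sin (Real.pi * x + Real.pi * y) * Real.cos (Real.pi * x + Real.pi * y) := by
    rw [← Real.sin_two_mul]; congr 1; ring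
  have h4 : Real.pi * (x + y) = Real.pi * x + Real.pi * y := by ring
  rw [h1, h2, h3, h4, Real.sin_add, Real.cos_add]
  have e1 := Real.sin_sq_add_cos_sq (Real.pi * x)
  have e2 := Real.sin_sq_add_cos_sq (Real.pi * y)
  set a := Real.sin (Real.pi * x)
  set b := Real.cos (Real.pi * x)
  set c := Real.sin (Real.pi * y)
  set d := Real.cos (Real.pi * y)
  have e1' : b ^ 2 = 1 - a ^ 2 := by linarith
  have e2' : d ^ 2 = 1 - c ^ 2 := by linarith
  have : 2 * a * b + 2 * c * d - 2 * (a * d + b * c) * (b * d - a * c) -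
      4 * a * c * (a * d + b * c) = 2 * a * b * (1 - d ^ 2 - c ^ 2) + 2 * c * d * (1 - b ^ 2 - a ^ 2) := by
    ring
  rw [e1', e2'] at this
  linarith

theorem sin_pi_int {x : ℝ} : Real.sin (Real.pi * x) = 0 ↔ ∃ z : ℤ, x = z := by
  rw [Real.sin_eq_zero_iff]
  constructor
  · rintro ⟨n, hn⟩
    refine ⟨n, ?_⟩
    have := mul_right_cancel₀ Real.pi_pos.ne' (hn.trans (mul_comm _ _))
    exact this.symm
  · rintro ⟨z, rfl⟩
    exact ⟨z, mul_comm _ _⟩

theorem G_eq_zero {x y : ℝ} : G x y = 0 ↔ (∃ z : ℤ, x = z) ∨ (∃ z : ℤ, y = z) ∨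
    ∃ z : ℤ, x + y = z := by
  rw [G_eq, mul_eq_zero, mul_eq_zero, mul_eq_zero, sin_pi_int, sin_pi_int, sin_pi_int]
  norm_num
  tauto

theorem G_neg (x y : ℝ) : G (-x) (-y) = - G x y := by
  unfold G
  have h1 : 2 * Real.pi * -x = -(2 * Real.pi * x) := by ring
  have h2 : 2 * Real.pi * -y = -(2 * Real.pi * y) := by ring
  have h3 : 2 * Real.pi * (-x + -y) = -(2 * Real.pi * (x + y)) := by ring
  rw [h1, h2, h3, Real.sin_neg, Real.sin_neg, Real.sin_neg]
  ring

theorem G_add_int_left (x y : ℝ) (z : ℤ) : G (x + z) y = G x y := by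
  unfold G
  have h1 : 2 * Real.pi * (x + z) = 2 * Real.pi * x + z * (2 * Real.pi) := by ring
  have h3 : 2 * Real.pi * (x + z + y) = 2 * Real.pi * (x + y) + z * (2 * Real.pi) := by ring
  rw [h1, h3, Real.sin_add_int_mul_two_pi, Real.sin_add_int_mul_two_pi]

theorem G_add_int_right (x y : ℝ) (z : ℤ) : G x (y + z) = G x y := by
  unfold G
  have h1 : 2 * Real.pi * (y + z) = 2 * Real.pi * y + z * (2 * Real.pi) := by ring
  have h3 : 2 * Real.pi * (x + (y + z)) = 2 * Real.pi * (x + y) + z * (2 * Real.pi) := by ring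
  rw [h1, h3, Real.sin_add_int_mul_two_pi, Real.sin_add_int_mul_two_pi]

/-- `G (x - y) y = G (-x) y` -/
theorem G_sub (x y : ℝ) : G (x - y) y = G (-x) y := by
  unfold G
  have h1 : 2 * Real.pi * -x = -(2 * Real.pi * x) := by ring
  have h2 : 2 * Real.pi * (-x + y) = -(2 * Real.pi * (x - y)) := by ring
  have h3 : x - y + y = x := by ring
  rw [h1, h2, h3, Real.sin_neg, Real.sin_neg]
  ring

theorem G_pos {x y : ℝ} (hx : 0 < x) (hy : 0 < y) (hxy : x + y < 1) : 0 < G x y := by
  rw [G_eq]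
  have hpi := Real.pi_pos
  have h1 : 0 < Real.sin (Real.pi * x) :=
    Real.sin_pos_of_pos_of_lt_pi (by positivity) (by nlinarith)
  have h2 : 0 < Real.sin (Real.pi * y) :=
    Real.sin_pos_of_pos_of_lt_pi (by positivity) (by nlinarith)
  have h3 : 0 < Real.sin (Real.pi * (x + y)) :=
    Real.sin_pos_of_pos_of_lt_pi (by positivity) (by nlinarith)
  positivity

theorem G_lt {x y : ℝ} (hx : x < 1) (hy : y < 1) (hxy : 1 < x + y) : G x y < 0 := by
  have h1 := G_pos (x := 1 - x) (y := 1 - y) (by linarith) (by linarith) (by linarith)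
  have h2 : G (1 - x) (1 - y) = G (-x) (-y) := by
    have e1 : (1 - x) = -x + ((1 : ℤ) : ℝ) := by push_cast; ring
    have e2 : (1 - y) = -y + ((1 : ℤ) : ℝ) := by push_cast; ring
    rw [e1, e2, G_add_int_left, G_add_int_right]
  rw [h2, G_neg] at h1
  linarith

theorem e_add (x y : ℝ) : e (x + y) = e x * e y := by
  unfold e
  rw [← Complex.exp_add]
  congr 1
  push_cast
  ring

theorem e_int (z : ℤ) : e z = 1 := by
  unfold e
  rw [Complex.exp_eq_one_iff]
  exact ⟨z, by push_cast; ring⟩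

theorem e_zero : e 0 = 1 := by
  have := e_int 0
  simpa using this

theorem e_add_int (x : ℝ) (z : ℤ) : e (x + z) = e x := by
  rw [e_add, e_int, mul_one]

theorem e_neg (x : ℝ) : e (-x) = (starRingEnd ℂ) (e x) := by
  unfold e
  rw [← Complex.exp_conj]
  congr 1
  simp only [map_mul, Complex.conj_I, Complex.conj_ofReal, map_ofNat]
  push_cast
  ring

theorem norm_e (x : ℝ) : ‖e x‖ = 1 := by
  unfold e
  rw [Complex.norm_exp]
  simp

theorem e_im (x : ℝ) : (e x).im = Real.sin (2 * Real.pi * x) := by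
  unfold e
  have : (2 * Real.pi * x * Complex.I : ℂ) = ((2 * Real.pi * x : ℝ) : ℂ) * Complex.I := by
    push_cast; ring
  rw [this, Complex.exp_ofReal_mul_I_im]

theorem e_eq_one {x : ℝ} : e x = 1 ↔ ∃ z : ℤ, x = z := by
  unfold e
  rw [Complex.exp_eq_one_iff]
  constructor
  · rintro ⟨n, hn⟩
    refine ⟨n, ?_⟩
    have h1 : (2 * Real.pi * Complex.I : ℂ) ≠ 0 := Complex.two_pi_I_ne_zero
    have h2 : (x : ℂ) = n := by
      apply mul_right_cancel₀ h1
      rw [← hn]; ring
    exact_mod_cast h2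
  · rintro ⟨z, rfl⟩
    exact ⟨z, by push_cast; ring⟩

/-- `G` as the imaginary part of an exponential. -/
theorem G_im (x y : ℝ) : G x y = Real.sin (2 * Real.pi * y) + (e x * (1 - e y)).im := by
  rw [mul_sub, mul_one, ← e_add, Complex.sub_im, e_im, e_im]
  unfold G
  ring

theorem continuous_G_left (y : ℝ) : Continuous fun x => G x y := by
  unfold G
  fun_prop

theorem continuous_e : Continuous e := by
  unfold e
  fun_prop

/-- the sign of `G` -/
noncomputable def f (x y : ℝ) : ℝ := Real.sign (G x y)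

theorem f_neg (x y : ℝ) : f (-x) (-y) = - f x y := by
  unfold f
  rw [G_neg, Real.sign_neg]

theorem f_add_int_left (x y : ℝ) (z : ℤ) : f (x + z) y = f x y := by
  unfold f; rw [G_add_int_left]

theorem f_add_int_right (x y : ℝ) (z : ℤ) : f x (y + z) = f x y := by
  unfold f; rw [G_add_int_right]

theorem measurable_f (y : ℝ) : Measurable fun x => f x y := by
  unfold f
  have : Measurable Real.sign := by
    unfold Real.sign
    exact Measurable.ite measurableSet_Iio measurable_const
      (Measurable.ite measurableSet_Ioi measurable_const measurable_const)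
  exact this.comp (continuous_G_left y).measurable

theorem abs_f_le (x y : ℝ) : |f x y| ≤ 1 := by
  unfold f
  rcases Real.sign_apply_eq (G x y) with h | h | h <;> rw [h] <;> norm_num

theorem f_mul_G (x y : ℝ) : f x y * G x y = |G x y| := by
  unfold f
  rcases lt_trichotomy (G x y) 0 with h | h | h
  · rw [Real.sign_of_neg h, abs_of_neg h]; ring
  · rw [h]; simp
  · rw [Real.sign_of_pos h, abs_of_pos h]; ring

theorem intInt_f (y : ℝ) (h : ℝ → ℂ) (hh : Continuous h) (a b : ℝ) :
    IntervalIntegrable (fun x => (f x y : ℂ) * h x) volume a b := by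
  have h1 : IntervalIntegrable h volume a b := hh.intervalIntegrable a b
  refine IntervalIntegrable.mono_fun h1 ?_ ?_
  · exact ((Complex.measurable_ofReal.comp (measurable_f y)).mul hh.measurable).aestronglyMeasurable
  · refine Filter.Eventually.of_forall fun x => ?_
    change ‖(f x y : ℂ) * h x‖ ≤ ‖h x‖
    rw [norm_mul]
    have h2 : ‖(f x y : ℂ)‖ ≤ 1 := by
      rw [Complex.norm_real]
      exact abs_f_le x y
    calc ‖(f x y : ℂ)‖ * ‖h x‖ ≤ 1 * ‖h x‖ := mul_le_mul_of_nonneg_right h2 (norm_nonneg _)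
      _ = ‖h x‖ := one_mul _

/-- Integrals against the sign function. -/
theorem int_f_mul {y : ℝ} (hy : 0 < y) (hy1 : y < 1) (h : ℝ → ℂ) (hh : Continuous h) :
    ∫ x in (0 : ℝ)..1, (f x y : ℂ) * h x =
      (∫ x in (0 : ℝ)..(1 - y), h x) - ∫ x in (1 - y)..1, h x := by
  have hA : ∫ x in (0 : ℝ)..(1 - y), (f x y : ℂ) * h x = ∫ x in (0 : ℝ)..(1 - y), h x := by
    apply intervalIntegral.integral_congr_ae
    refine (MeasureTheory.ae_iff.mpr ?_ : ∀ᵐ x, x ≠ 1 - y).mono fun x hx hxm => ?_
    · simp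
    · rw [Set.uIoc_of_le (by linarith)] at hxm
      have h1 : 0 < G x y := G_pos hxm.1 hy (by
        have := lt_of_le_of_ne hxm.2 hx
        linarith)
      have h2 : f x y = 1 := Real.sign_of_pos h1
      rw [h2]
      simp
  have hB : ∫ x in (1 - y)..1, (f x y : ℂ) * h x = ∫ x in (1 - y)..1, - h x := by
    apply intervalIntegral.integral_congr_ae
    refine (MeasureTheory.ae_iff.mpr ?_ : ∀ᵐ x : ℝ, x ≠ 1).mono fun x hx hxm => ?_
    · simp
    · rw [Set.uIoc_of_le (by linarith)] at hxm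
      have h1 : G x y < 0 := G_lt (lt_of_le_of_ne hxm.2 hx) hy1 (by linarith [hxm.1])
      have h2 : f x y = -1 := Real.sign_of_neg h1
      rw [h2]
      simp
  rw [← intervalIntegral.integral_add_adjacent_intervals (intInt_f y h hh 0 (1 - y))
    (intInt_f y h hh (1 - y) 1), hA, hB, intervalIntegral.integral_neg]
  ring

theorem int_e (a b : ℝ) : ∫ x in a..b, e x = (e b - e a) / (2 * Real.pi * Complex.I) := by
  have h : (2 * Real.pi * Complex.I : ℂ) ≠ 0 := Complex.two_pi_I_ne_zero
  have h1 := integral_exp_mul_complex (a := a) (b := b) h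
  unfold e
  rw [show (2 * Real.pi * (b : ℂ) * Complex.I : ℂ) = 2 * Real.pi * Complex.I * b by ring,
    show (2 * Real.pi * (a : ℂ) * Complex.I : ℂ) = 2 * Real.pi * Complex.I * a by ring, ← h1]
  refine intervalIntegral.integral_congr fun x _ => ?_
  change Complex.exp (2 * Real.pi * x * Complex.I) = Complex.exp (2 * Real.pi * Complex.I * x)
  congr 1
  ring

end Pool.Agent.Superell
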